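import Pool.Agent.Lib.MP_9b987c_gt.HC.SpecG

/-!
# Representations up to homotopy without unit conditions

The definition of the problem file read literally has no unit condition.  We show that then the
pullback functor is not an equivalence for the hypercover from the pair groupoid of `ℝ` to the point.
-/

namespace Pool.Agent.Lib.MP_9b987c_gt.HC.NU

open scoped Manifold ContDiff BigOperators

/-- The data `(deg, e, R)` are a representation up to homotopy of `G` in the sense of the equation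
`D D = 0` only: as `IsRuth`, without the conditions on units. -/
structure IsRuth0 (G : LieGpd) {ι : Type} [Fintype ι] [DecidableEq ι] (deg : ι → ℤ)
    (e : G.Ob → (ι → ℝ) →ₗ[ℝ] (ι → ℝ)) (R : G.Ob → List G.Ar → (ι → ℝ) →ₗ[ℝ] (ι → ℝ)) : Prop where
  e_smooth : ∀ i j, ContMDiff (𝓡 G.m) 𝓘(ℝ, ℝ) ∞ (fun x => e x (Pi.single j 1) i)
  e_idem : ∀ x, e x ∘ₗ e x = e x
  e_deg : ∀ x, Deg deg deg (e x) 0
  R_zero : ∀ x l, ¬ G.Chain x l → R x l = 0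
  R_smooth : G.Smooth R
  R_deg : ∀ x l, Deg deg deg (R x l) (1 - l.length)
  R_left : ∀ x l, e x ∘ₗ R x l = R x l
  R_right : ∀ x l, R x l ∘ₗ e (G.fin x l) = R x l
  eqn : ∀ x l, G.Chain x l →
    ∑ j ∈ Finset.range (l.length - 1), ((-1 : ℝ) ^ (j + 1)) • R x (G.face j l) =
      ∑ j ∈ Finset.range (l.length + 1),
        ((-1 : ℝ) ^ j) • (R x (l.take j) ∘ₗ R (G.fin x (l.take j)) (l.drop j))

/-- The hat form of `IsRuth0`. -/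
structure HRuth0 (G : LieGpd) {ι : Type} [Fintype ι] [DecidableEq ι] (deg : ι → ℤ)
    (e : G.Ob → (ι → ℝ) →ₗ[ℝ] (ι → ℝ)) (R : G.Ob → List G.Ar → (ι → ℝ) →ₗ[ℝ] (ι → ℝ)) : Prop where
  e_smooth : SmoothE G e
  zero : ∀ x l, ¬ G.Chain x l → R x l = 0
  smooth : G.Smooth R
  sr : ∀ (V : Type) (F : Frame G V), PreRuth deg (fun v => e (F.b v)) (F.hom R)

/-- **NEX** (the example, 250 lines; elementary manifolds).  `G'` = pair groupoid of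
`Ob = Eu 1`, `Ar = Eu 2` (`tgt g = g 0`, `src g = g 1`, `one x = (x, x)`, `mul g h = (g 0, h 1)`);
`G` = the point, `Ob = Ar = Eu 0`; `φ` the constant maps (linear surjections are submersions: charts =
identity, `equiv` a linear isomorphism `Eu a ≃ Eu b × F`).  `ι = Fin 2`, `deg = ![0, 1]`, `e = 1`,
`R x [] z = (0, x * z 0)` and `R x l = 0` for `l ≠ []`.  At `x = 0` the class `z = (1, 0)` is not
exact, at `x = 1` the complex is exact. -/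
def SpecNEX : Prop :=
  ∃ (G' G : LieGpd) (φ : Hypercover G' G) (deg : Fin 2 → ℤ)
    (e : G'.Ob → (Fin 2 → ℝ) →ₗ[ℝ] (Fin 2 → ℝ))
    (R : G'.Ob → List G'.Ar → (Fin 2 → ℝ) →ₗ[ℝ] (Fin 2 → ℝ)) (x₀ x₁ : G'.Ob),
    IsRuth0 G' deg e R ∧ φ.ob x₀ = φ.ob x₁ ∧
    (∃ z, e x₀ z = z ∧ R x₀ [] z = 0 ∧ ¬ ∃ y, z = R x₀ [] y) ∧
    (∀ z, e x₁ z = z → R x₁ [] z = 0 → ∃ y, z = R x₁ [] y)

/-- **HATN** (port of HAT, 250 lines; uses FRM, SMP).  The same proof without units. -/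
def SpecHATN : Prop :=
  ∀ (G : LieGpd) (ι κ : Type) [Fintype ι] [DecidableEq ι] [Fintype κ] [DecidableEq κ]
    (deg : ι → ℤ) (deg' : κ → ℤ)
    (e : G.Ob → (ι → ℝ) →ₗ[ℝ] (ι → ℝ)) (R : G.Ob → List G.Ar → (ι → ℝ) →ₗ[ℝ] (ι → ℝ))
    (e' : G.Ob → (κ → ℝ) →ₗ[ℝ] (κ → ℝ)) (R' : G.Ob → List G.Ar → (κ → ℝ) →ₗ[ℝ] (κ → ℝ)),
    (IsRuth0 G deg e R ↔ HRuth0 G deg e (tw deg R)) ∧
    (∀ F : G.Ob → List G.Ar → (ι → ℝ) →ₗ[ℝ] (κ → ℝ), IsRuth0 G deg e R → IsRuth0 G deg' e' R' →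
      (IsHom G deg e R deg' e' R' F ↔
        HCo G deg deg' 0 e e' (tw deg F) ∧ HCl G deg' (tw deg R) (tw deg' R') (tw deg F)))

/-- **CTGN** (port of CTG with the parts of CNG, PUL needed, 250 lines; uses HATN, HAT (the statements
on `tw` and `starG`), DLB, FRM, SMP, PUL). -/
def SpecCTGN : Prop :=
  ∀ (G : LieGpd) (ι κ μ : Type) [Fintype ι] [DecidableEq ι] [Fintype κ] [DecidableEq κ]
    [Fintype μ] [DecidableEq μ] (dE : ι → ℤ) (dF : κ → ℤ) (dG : μ → ℤ)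
    (eE : G.Ob → (ι → ℝ) →ₗ[ℝ] (ι → ℝ)) (RE : G.Ob → List G.Ar → (ι → ℝ) →ₗ[ℝ] (ι → ℝ))
    (eF : G.Ob → (κ → ℝ) →ₗ[ℝ] (κ → ℝ)) (RF : G.Ob → List G.Ar → (κ → ℝ) →ₗ[ℝ] (κ → ℝ))
    (eG : G.Ob → (μ → ℝ) →ₗ[ℝ] (μ → ℝ)) (RG : G.Ob → List G.Ar → (μ → ℝ) →ₗ[ℝ] (μ → ℝ)),
    IsRuth0 G dE eE RE → IsRuth0 G dF eF RF → IsRuth0 G dG eG RG →
    IsHom G dE eE RE dE eE RE (unitG G eE) ∧
    (∀ (A : G.Ob → List G.Ar → (κ → ℝ) →ₗ[ℝ] (μ → ℝ)) (B : G.Ob → List G.Ar → (ι → ℝ) →ₗ[ℝ] (κ → ℝ)),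
      IsHom G dF eF RF dG eG RG A → IsHom G dE eE RE dF eF RF B →
      IsHom G dE eE RE dG eG RG (starG G A B)) ∧
    (∀ B : G.Ob → List G.Ar → (ι → ℝ) →ₗ[ℝ] (κ → ℝ), IsHom G dE eE RE dF eF RF B →
      starG G (unitG G eF) B = B ∧ starG G B (unitG G eE) = B) ∧
    (∀ (ν : Type) (A : G.Ob → List G.Ar → (μ → ℝ) →ₗ[ℝ] (ν → ℝ))
      (B : G.Ob → List G.Ar → (κ → ℝ) →ₗ[ℝ] (μ → ℝ)) (C : G.Ob → List G.Ar → (ι → ℝ) →ₗ[ℝ] (κ → ℝ)),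
      starG G (starG G A B) C = starG G A (starG G B C)) ∧
    (∀ (G' : LieGpd) (φ : Hypercover G' G),
      IsRuth0 G' dE (fun x => eE (φ.ob x)) (pullG φ RE) ∧
      ∀ B : G.Ob → List G.Ar → (ι → ℝ) →ₗ[ℝ] (κ → ℝ), IsHom G dE eE RE dF eF RF B →
        IsHom G' dE (fun x => eE (φ.ob x)) (pullG φ RE) dF (fun x => eF (φ.ob x)) (pullG φ RF)
          (pullG φ B))

end Pool.Agent.Lib.MP_9b987c_gt.HC.NU
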