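import Pool.Agent.Lib.MP_9b987c_gt.HC.SpecG
import Pool.Agent.Lib.MP_9b987c_gt.HC.Basic
import Pool.Agent.Lib.MP_9b987c_gt.HC.PLF
import Pool.Agent.Lib.MP_9b987c_gt.HC.NU.SpecN

section
/-!
# Module ACY: smooth contraction of an acyclic complex of vector bundles

No local choices are necessary: with the matrices `E`, `D` of `e`, `d` put
`W = D Dᵀ E + E Dᵀ D + 1 - E`.  It is invertible if the complex is acyclic, and
`H = E Dᵀ E W⁻¹` is a contraction.
-/
namespace Pool.Agent.Lib.MP_9b987c_gt.HC.ACYM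

open scoped Manifold ContDiff BigOperators
open Matrix Pool.Agent.Lib.MP_9b987c_gt.HC

section Alg

variable {ι : Type} [Fintype ι] [DecidableEq ι]

/-- The operator `W`. -/
noncomputable def wM (E D : Matrix ι ι ℝ) : Matrix ι ι ℝ := D * Dᵀ * E + E * Dᵀ * D + 1 - E

omit [DecidableEq ι] in
lemma tr_mul_zero (D : Matrix ι ι ℝ) (z : ι → ℝ) (h : Dᵀ *ᵥ (D *ᵥ z) = 0) : D *ᵥ z = 0 := by
  have h1 := (Matrix.conjTranspose_mul_self_mulVec_eq_zero D z).mp
    (by rw [Matrix.conjTranspose_eq_transpose_of_trivial, ← Matrix.mulVec_mulVec]; exact h)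
  exact h1

omit [DecidableEq ι] in
lemma mul_tr_zero (D : Matrix ι ι ℝ) (z : ι → ℝ) (h : D *ᵥ (Dᵀ *ᵥ z) = 0) : Dᵀ *ᵥ z = 0 := by
  have := tr_mul_zero Dᵀ z (by rw [Matrix.transpose_transpose]; exact h)
  exact this

lemma wM_inj {E D : Matrix ι ι ℝ} (hE : E * E = E) (hED : E * D = D) (hDE : D * E = D)
    (hDD : D * D = 0) (hac : ∀ z, E *ᵥ z = z → D *ᵥ z = 0 → ∃ y, z = D *ᵥ y) (z : ι → ℝ)
    (hz : wM E D *ᵥ z = 0) : z = 0 := by
  have hEW : E * wM E D = D * Dᵀ * E + E * Dᵀ * D := by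
    unfold wM
    rw [mul_sub, mul_add, mul_add, mul_one, hE, ← mul_assoc, ← mul_assoc, hED, ← mul_assoc,
      ← mul_assoc, hE]
    abel
  have h1 : (D * Dᵀ * E + E * Dᵀ * D) *ᵥ z = 0 := by
    rw [← hEW, ← Matrix.mulVec_mulVec, hz, Matrix.mulVec_zero]
  have h2 : E *ᵥ z = z := by
    have h3 : wM E D = (D * Dᵀ * E + E * Dᵀ * D) + (1 - E) := by unfold wM; abel
    rw [h3, Matrix.add_mulVec, h1, zero_add, Matrix.sub_mulVec, Matrix.one_mulVec] at hz
    exact (sub_eq_zero.mp hz).symm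
  have h4 : D *ᵥ (Dᵀ *ᵥ z) + E *ᵥ (Dᵀ *ᵥ (D *ᵥ z)) = 0 := by
    have : (D * Dᵀ * E + E * Dᵀ * D) *ᵥ z = D *ᵥ (Dᵀ *ᵥ (E *ᵥ z)) + E *ᵥ (Dᵀ *ᵥ (D *ᵥ z)) := by
      simp only [Matrix.add_mulVec, Matrix.mulVec_mulVec, mul_assoc]
    rw [this, h2] at h1
    exact h1
  have h5 : D *ᵥ (Dᵀ *ᵥ (D *ᵥ z)) = 0 := by
    have h6 := congrArg (fun x => D *ᵥ x) h4
    simp only [Matrix.mulVec_add, Matrix.mulVec_mulVec, Matrix.mulVec_zero] at h6
    rw [← mul_assoc D D, hDD, zero_mul, Matrix.zero_mulVec, zero_add, ← mul_assoc D E, hDE] at h6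
    simpa only [Matrix.mulVec_mulVec, mul_assoc] using h6
  have h6 := mul_tr_zero D _ h5
  have h7 := tr_mul_zero D _ h6
  rw [h7, Matrix.mulVec_zero, Matrix.mulVec_zero, add_zero] at h4
  have h8 := mul_tr_zero D _ h4
  obtain ⟨y, hy⟩ := hac z h2 h7
  rw [hy] at h8
  rw [hy]
  exact tr_mul_zero D y h8

/-- The contraction. -/
noncomputable def hM (E D : Matrix ι ι ℝ) : Matrix ι ι ℝ := E * Dᵀ * E * (wM E D)⁻¹

/-- An acyclic complex of matrices. -/
structure Cx (E D : Matrix ι ι ℝ) : Prop where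
  hE : E * E = E
  hED : E * D = D
  hDE : D * E = D
  hDD : D * D = 0
  hac : ∀ z, E *ᵥ z = z → D *ᵥ z = 0 → ∃ y, z = D *ᵥ y

namespace Cx

variable {E D : Matrix ι ι ℝ}

lemma unit (h : Cx E D) : IsUnit (wM E D) := by
  rw [← Matrix.mulVec_injective_iff_isUnit]
  intro z z' hz
  have : wM E D *ᵥ (z - z') = 0 := by
    rw [Matrix.mulVec_sub]; exact sub_eq_zero.mpr hz
  exact sub_eq_zero.mp (wM_inj h.hE h.hED h.hDE h.hDD h.hac _ this)

lemma det_ne (h : Cx E D) : (wM E D).det ≠ 0 :=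
  ((Matrix.isUnit_iff_isUnit_det _).mp h.unit).ne_zero

lemma det_unit (h : Cx E D) : IsUnit (wM E D).det := (Matrix.isUnit_iff_isUnit_det _).mp h.unit

/-- Something that commutes with `W` commutes with its inverse. -/
lemma inv_comm (h : Cx E D) {A : Matrix ι ι ℝ} (hA : A * wM E D = wM E D * A) :
    A * (wM E D)⁻¹ = (wM E D)⁻¹ * A := by
  have h1 := Matrix.mul_nonsing_inv _ h.det_unit
  have h2 := Matrix.nonsing_inv_mul _ h.det_unit
  calc A * (wM E D)⁻¹ = (wM E D)⁻¹ * wM E D * (A * (wM E D)⁻¹) := by rw [h2, one_mul]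
    _ = (wM E D)⁻¹ * (wM E D * A) * (wM E D)⁻¹ := by simp only [mul_assoc]
    _ = (wM E D)⁻¹ * (A * wM E D) * (wM E D)⁻¹ := by rw [hA]
    _ = (wM E D)⁻¹ * A * (wM E D * (wM E D)⁻¹) := by simp only [mul_assoc]
    _ = (wM E D)⁻¹ * A := by rw [h1, mul_one]

lemma EW (h : Cx E D) : E * wM E D = D * Dᵀ * E + E * Dᵀ * D := by
  unfold wM
  rw [mul_sub, mul_add, mul_add, mul_one, h.hE, ← mul_assoc, ← mul_assoc, h.hED, ← mul_assoc,
    ← mul_assoc, h.hE]
  abel

lemma WE (h : Cx E D) : wM E D * E = D * Dᵀ * E + E * Dᵀ * D := by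
  unfold wM
  rw [sub_mul, add_mul, add_mul, one_mul, h.hE, mul_assoc (D * Dᵀ) E E, h.hE,
    mul_assoc (E * Dᵀ) D E, h.hDE]
  abel

lemma DW (h : Cx E D) : D * wM E D = D * Dᵀ * D := by
  unfold wM
  rw [mul_sub, mul_add, mul_add, mul_one, h.hDE]
  have e1 : D * (D * Dᵀ * E) = 0 := by
    rw [← mul_assoc, ← mul_assoc, h.hDD]; simp
  have e2 : D * (E * Dᵀ * D) = D * Dᵀ * D := by
    rw [← mul_assoc, ← mul_assoc, h.hDE]
  rw [e1, e2]
  abel

lemma WD (h : Cx E D) : wM E D * D = D * Dᵀ * D := by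
  unfold wM
  rw [sub_mul, add_mul, add_mul, one_mul, h.hED]
  have e1 : D * Dᵀ * E * D = D * Dᵀ * D := by rw [mul_assoc (D * Dᵀ), h.hED]
  have e2 : E * Dᵀ * D * D = 0 := by rw [mul_assoc (E * Dᵀ), h.hDD, mul_zero]
  rw [e1, e2]
  abel

lemma E_h (h : Cx E D) : E * hM E D = hM E D := by
  unfold hM
  simp only [← mul_assoc]
  rw [h.hE]

lemma h_E (h : Cx E D) : hM E D * E = hM E D := by
  unfold hM
  rw [mul_assoc, ← h.inv_comm (h.EW.trans h.WE.symm), ← mul_assoc, mul_assoc (E * Dᵀ) E E, h.hE]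

lemma eq (h : Cx E D) : D * hM E D + hM E D * D = E := by
  have e1 : hM E D * D = E * Dᵀ * E * D * (wM E D)⁻¹ := by
    unfold hM
    rw [mul_assoc, ← h.inv_comm (h.DW.trans h.WD.symm), ← mul_assoc]
  have e2 : D * hM E D = D * (E * Dᵀ * E) * (wM E D)⁻¹ := by
    unfold hM; rw [← mul_assoc]
  rw [e1, e2, ← add_mul]
  have e3 : D * (E * Dᵀ * E) + E * Dᵀ * E * D = E * wM E D := by
    rw [h.EW, mul_assoc (E * Dᵀ) E D, h.hED, ← mul_assoc, ← mul_assoc, h.hDE]
  rw [e3, mul_assoc, Matrix.mul_nonsing_inv _ h.det_unit, mul_one]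

end Cx

/-- Matrices of degree `s`. -/
def MDeg (deg : ι → ℤ) (A : Matrix ι ι ℝ) (s : ℤ) : Prop := ∀ i j, A i j ≠ 0 → deg i = deg j + s

omit [DecidableEq ι] in
lemma MDeg.mul {deg : ι → ℤ} {A B : Matrix ι ι ℝ} {s s' : ℤ} (hA : MDeg deg A s)
    (hB : MDeg deg B s') : MDeg deg (A * B) (s + s') := by
  intro i j hij
  rw [Matrix.mul_apply] at hij
  obtain ⟨k, -, hk⟩ := Finset.exists_ne_zero_of_sum_ne_zero hij
  have h1 := hA i k (left_ne_zero_of_mul hk)
  have h2 := hB k j (right_ne_zero_of_mul hk)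
  omega

omit [Fintype ι] [DecidableEq ι] in
lemma MDeg.tr {deg : ι → ℤ} {A : Matrix ι ι ℝ} {s : ℤ} (hA : MDeg deg A s) :
    MDeg deg Aᵀ (-s) := by
  intro i j hij
  have := hA j i hij
  omega

omit [Fintype ι] [DecidableEq ι] in
lemma MDeg.add {deg : ι → ℤ} {A B : Matrix ι ι ℝ} {s : ℤ} (hA : MDeg deg A s)
    (hB : MDeg deg B s) : MDeg deg (A + B) s := by
  intro i j hij
  by_cases h : A i j = 0
  · apply hB i j; intro h'; exact hij (by simp [h, h'])
  · exact hA i j h

omit [Fintype ι] [DecidableEq ι] in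
lemma MDeg.sub {deg : ι → ℤ} {A B : Matrix ι ι ℝ} {s : ℤ} (hA : MDeg deg A s)
    (hB : MDeg deg B s) : MDeg deg (A - B) s := by
  intro i j hij
  by_cases h : A i j = 0
  · apply hB i j; intro h'; exact hij (by simp [h, h'])
  · exact hA i j h

omit [Fintype ι] in
lemma mdeg_one {deg : ι → ℤ} : MDeg deg (1 : Matrix ι ι ℝ) 0 := by
  intro i j hij
  by_cases h : i = j
  · rw [h, add_zero]
  · exact absurd (Matrix.one_apply_ne h) hij

/-- Degree zero is commutation with a diagonal matrix. -/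
lemma mdeg_zero_iff {deg : ι → ℤ} {A : Matrix ι ι ℝ} :
    MDeg deg A 0 ↔ Matrix.diagonal (fun i => (deg i : ℝ)) * A =
      A * Matrix.diagonal (fun i => (deg i : ℝ)) := by
  constructor
  · intro h
    ext i j
    rw [Matrix.diagonal_mul, Matrix.mul_diagonal]
    by_cases h0 : A i j = 0
    · simp [h0]
    · rw [h i j h0, add_zero, mul_comm]
  · intro h i j hij
    have h1 := congrFun (congrFun h i) j
    rw [Matrix.diagonal_mul, Matrix.mul_diagonal, mul_comm] at h1
    have h2 := mul_left_cancel₀ hij h1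
    have h3 : deg i = deg j := by exact_mod_cast h2
    rw [h3, add_zero]

lemma mdeg_w {deg : ι → ℤ} {E D : Matrix ι ι ℝ} (hE : MDeg deg E 0) (hD : MDeg deg D 1) :
    MDeg deg (wM E D) 0 := by
  unfold wM
  have h1 := (hD.mul hD.tr).mul hE
  have h2 := (hE.mul hD.tr).mul hD
  have e1 : (1 : ℤ) + -1 + 0 = 0 := by norm_num
  have e2 : (0 : ℤ) + -1 + 1 = 0 := by norm_num
  rw [e1] at h1
  rw [e2] at h2
  exact ((h1.add h2).add mdeg_one).sub hE

lemma mdeg_h {deg : ι → ℤ} {E D : Matrix ι ι ℝ} (h : Cx E D) (hE : MDeg deg E 0)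
    (hD : MDeg deg D 1) : MDeg deg (hM E D) (-1) := by
  have h1 : MDeg deg (wM E D)⁻¹ 0 := by
    rw [mdeg_zero_iff]
    exact h.inv_comm (mdeg_zero_iff.mp (mdeg_w hE hD))
  have h2 := ((hE.mul hD.tr).mul hE).mul h1
  have e : (0 : ℤ) + -1 + 0 + 0 = -1 := by norm_num
  rw [e] at h2
  exact h2

end Alg

section Smooth

variable (G : LieGpd) {ι : Type} [Fintype ι] [DecidableEq ι]

/-- Smooth families of matrices. -/
def SmM {κ μ : Type} (A : G.Ob → Matrix κ μ ℝ) : Prop :=
  ∀ i j, ContMDiff (𝓡 G.m) 𝓘(ℝ, ℝ) ∞ (fun x => A x i j)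

variable {G}

omit [DecidableEq ι] in
lemma SmM.mul {A B : G.Ob → Matrix ι ι ℝ} (hA : SmM G A) (hB : SmM G B) :
    SmM G (fun x => A x * B x) := by
  intro i j
  simp only [Matrix.mul_apply]
  exact contMDiff_finsetSum (fun k _ => (hA i k).mul (hB k j))

omit [Fintype ι] [DecidableEq ι] in
lemma SmM.add {A B : G.Ob → Matrix ι ι ℝ} (hA : SmM G A) (hB : SmM G B) :
    SmM G (fun x => A x + B x) := fun i j => (hA i j).add (hB i j)

omit [Fintype ι] [DecidableEq ι] in
lemma SmM.sub {A B : G.Ob → Matrix ι ι ℝ} (hA : SmM G A) (hB : SmM G B) :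
    SmM G (fun x => A x - B x) := fun i j => (hA i j).sub (hB i j)

omit [Fintype ι] [DecidableEq ι] in
lemma SmM.tr {A : G.Ob → Matrix ι ι ℝ} (hA : SmM G A) : SmM G (fun x => (A x)ᵀ) :=
  fun i j => hA j i

omit [Fintype ι] [DecidableEq ι] in
lemma SmM.const (A : Matrix ι ι ℝ) : SmM G (fun _ => A) := fun _ _ => contMDiff_const

lemma SmM.det {A : G.Ob → Matrix ι ι ℝ} (hA : SmM G A) :
    ContMDiff (𝓡 G.m) 𝓘(ℝ, ℝ) ∞ (fun x => (A x).det) := by
  simp only [Matrix.det_apply']
  refine contMDiff_finsetSum (fun σ _ => ?_)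
  exact contMDiff_const.mul (contMDiff_finsetProd (fun i _ => hA _ _))

lemma SmM.inv {A : G.Ob → Matrix ι ι ℝ} (hA : SmM G A) (h : ∀ x, (A x).det ≠ 0) :
    SmM G (fun x => (A x)⁻¹) := by
  intro i j
  have h1 : (fun x => (A x)⁻¹ i j) =
      fun x => ((A x).det)⁻¹ * ((A x).updateRow j (Pi.single i 1)).det := by
    funext x
    rw [Matrix.inv_def, Matrix.smul_apply, Ring.inverse_eq_inv', Matrix.adjugate_apply]
    rfl
  rw [h1]
  refine ContMDiff.mul ?_ ?_
  · intro x
    have h2 : ContDiffAt ℝ ∞ (fun t : ℝ => t⁻¹) ((A x).det) := contDiffAt_inv ℝ (h x)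
    exact (h2.contMDiffAt).comp x (hA.det x)
  · refine SmM.det (A := fun x => (A x).updateRow j (Pi.single i 1)) (fun a b => ?_)
    by_cases ha : a = j
    · subst ha
      simp only [Matrix.updateRow_self]
      exact contMDiff_const
    · simp only [Matrix.updateRow_ne ha]
      exact hA a b

end Smooth

theorem main : SpecACY := by
  intro G ι _ _ deg e d hse hsd hee hed hdd hed' hde' hd2 hac
  set E : G.Ob → Matrix ι ι ℝ := fun x => LinearMap.toMatrix' (e x) with hE
  set D : G.Ob → Matrix ι ι ℝ := fun x => LinearMap.toMatrix' (d x) with hD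
  have eE : ∀ x, Matrix.toLin' (E x) = e x := fun x => Matrix.toLin'_toMatrix' _
  have eD : ∀ x, Matrix.toLin' (D x) = d x := fun x => Matrix.toLin'_toMatrix' _
  have eEv : ∀ x z, E x *ᵥ z = e x z := fun x z => by rw [← eE x, Matrix.toLin'_apply]
  have eDv : ∀ x z, D x *ᵥ z = d x z := fun x z => by rw [← eD x, Matrix.toLin'_apply]
  have mE : SmM G E := by
    intro i j
    have : (fun x => E x i j) = fun x => e x (Pi.single j 1) i := by
      funext x; rw [hE]; simp only [LinearMap.toMatrix'_apply]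
    rw [this]; exact hse i j
  have mD : SmM G D := by
    intro i j
    have : (fun x => D x i j) = fun x => d x (Pi.single j 1) i := by
      funext x; rw [hD]; simp only [LinearMap.toMatrix'_apply]
    rw [this]; exact hsd i j
  have hcx : ∀ x, Cx (E x) (D x) := by
    intro x
    refine ⟨?_, ?_, ?_, ?_, ?_⟩
    · rw [hE]; simp only [← LinearMap.toMatrix'_comp, hee x]
    · rw [hE, hD]; simp only [← LinearMap.toMatrix'_comp, hed' x]
    · rw [hE, hD]; simp only [← LinearMap.toMatrix'_comp, hde' x]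
    · rw [hD]; simp only [← LinearMap.toMatrix'_comp, hd2 x, map_zero]
    · intro z h1 h2
      rw [eEv] at h1
      rw [eDv] at h2
      obtain ⟨y, hy⟩ := hac x z h1 h2
      exact ⟨y, by rw [eDv]; exact hy⟩
  have dE : ∀ x, MDeg deg (E x) 0 := by
    intro x i j hij
    apply deg_iff.mp (hed x) i j
    have : e x (Pi.single j 1) i = E x i j := by
      rw [hE]; simp only [LinearMap.toMatrix'_apply]
    rw [this]; exact hij
  have dD : ∀ x, MDeg deg (D x) 1 := by
    intro x i j hij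
    apply deg_iff.mp (hdd x) i j
    have : d x (Pi.single j 1) i = D x i j := by
      rw [hD]; simp only [LinearMap.toMatrix'_apply]
    rw [this]; exact hij
  refine ⟨fun x => Matrix.toLin' (hM (E x) (D x)), ?_, ?_, ?_, ?_, ?_⟩
  · have hs : SmM G (fun x => hM (E x) (D x)) := by
      unfold hM
      refine ((mE.mul mD.tr).mul mE).mul ?_
      refine SmM.inv ?_ (fun x => (hcx x).det_ne)
      unfold wM
      exact ((((mD.mul mD.tr).mul mE).add ((mE.mul mD.tr).mul mD)).add (SmM.const 1)).sub mE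
    intro i j
    have : (fun x => Matrix.toLin' (hM (E x) (D x)) (Pi.single j 1) i) =
        fun x => hM (E x) (D x) i j := by
      funext x
      rw [Matrix.toLin'_apply, Matrix.mulVec_single_one]
      rfl
    rw [this]
    exact hs i j
  · intro x
    rw [← eE x, ← Matrix.toLin'_mul, (hcx x).E_h]
  · intro x
    rw [← eE x, ← Matrix.toLin'_mul, (hcx x).h_E]
  · intro x
    rw [deg_iff]
    intro i j hij
    rw [Matrix.toLin'_apply, Matrix.mulVec_single_one] at hij
    exact mdeg_h (hcx x) (dE x) (dD x) i j hij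
  · intro x
    have h1 := congrArg Matrix.toLin' (hcx x).eq
    rw [map_add, Matrix.toLin'_mul, Matrix.toLin'_mul, eD x, eE x] at h1
    exact h1

end Pool.Agent.Lib.MP_9b987c_gt.HC.ACYM

namespace Pool.Agent.Lib.MP_9b987c_gt.HC

theorem specACY : SpecACY := ACYM.main

end Pool.Agent.Lib.MP_9b987c_gt.HC
end

section
/-!
# Module CNS: the contraction on `G`
-/
namespace Pool.Agent.Lib.MP_9b987c_gt.HC

open scoped Manifold ContDiff BigOperators

namespace CNSM

variable {G : LieGpd} {ι κ : Type}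

/-- Smoothness depends only on the values on plots of every length. -/
theorem smooth_congr [DecidableEq ι] {A : G.Ob → List G.Ar → (ι → ℝ) →ₗ[ℝ] (κ → ℝ)}
    (B : ℕ → G.Ob → List G.Ar → (ι → ℝ) →ₗ[ℝ] (κ → ℝ)) (hB : ∀ k, G.Smooth (B k))
    (h : ∀ x l, A x l = B l.length x l) : G.Smooth A := by
  intro d k U x g hU hx hg hc i j
  refine (hB k d k U x g hU hx hg hc i j).congr ?_
  intro u _
  rw [h, List.length_ofFn]

theorem zsmul_real (n : ℕ) (A : (ι → ℝ) →ₗ[ℝ] (κ → ℝ)) :
    ((-1 : ℤ) ^ n) • A = ((-1 : ℝ) ^ n) • A := by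
  rcases Nat.even_or_odd n with h | h
  · rw [h.neg_one_pow, h.neg_one_pow, one_smul, one_smul]
  · rw [h.neg_one_pow, h.neg_one_pow]
    exact (neg_one_smul ℤ A).trans (neg_one_smul ℝ A).symm

end CNSM

open CNSM in
theorem specCNS (hFRM : SpecFRM) (hSMP : SpecSMP) : SpecCNS := by
  intro G ι _ _ e h R he hh hR hR0
  obtain ⟨s1, s2, s3, s4, -, -, -, -⟩ := hSMP G ι ι ι
  obtain ⟨f1, f2, -, -, -, -, f7, -, -, -, -⟩ := hFRM G
  -- `ν` is smooth and vanishes off chains
  have hz : G.Smooth (fun (_ : G.Ob) (_ : List G.Ar) => (0 : (ι → ℝ) →ₗ[ℝ] (ι → ℝ))) := by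
    intro d k U x g hU hx hg hc i j
    simpa using contDiffOn_const
  obtain ⟨h1, h2⟩ := s3 h hh
  have hnu : G.Smooth (nuG G h R) := by
    refine smooth_congr (fun k => if k = 0 then (fun _ _ => 0) else
      ((fun x l => h x ∘ₗ R x l) + fun x l => R x l ∘ₗ h (G.fin x l))) ?_ ?_
    · intro k
      by_cases hk : k = 0
      · simp only [hk, if_true]
        exact hz
      · simp only [hk, if_false]
        exact (s2 _ _ 0 ((s1 _ _).2.1 h1 hR) ((s1 _ _).2.1 hR h2)).1
    · intro x l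
      cases l with
      | nil => rfl
      | cons g l => rfl
  have hnu0 : ∀ x l, ¬ G.Chain x l → nuG G h R x l = 0 := by
    intro x l hl
    cases l with
    | nil => rfl
    | cons g l =>
      show h x ∘ₗ R x (g :: l) + R x (g :: l) ∘ₗ h (G.fin x (g :: l)) = 0
      rw [hR0 x _ hl, LinearMap.comp_zero, LinearMap.zero_comp, add_zero]
  have hu0 : ∀ x l, ¬ G.Chain x l → unitG G e x l = 0 := by
    intro x l hl
    cases l with
    | nil => exact absurd trivial hl
    | cons g l => rfl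
  have hpow : ∀ n, G.Smooth (powG G (unitG G e) (nuG G h R) n) ∧
      ∀ x l, ¬ G.Chain x l → powG G (unitG G e) (nuG G h R) n x l = 0 := by
    intro n
    induction n with
    | zero => exact ⟨s4 e he, hu0⟩
    | succ n ih =>
      exact ⟨(s1 _ _).1 hnu ih.1, (s1 _ _).2.2 hnu0 ih.2⟩
  have hsum : ∀ N, G.Smooth (fun x l => ∑ n ∈ Finset.range N,
      ((-1 : ℤ) ^ n) • powG G (unitG G e) (nuG G h R) n x l) := by
    intro N
    induction N with
    | zero =>
      simp only [Finset.range_zero, Finset.sum_empty]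
      exact hz
    | succ N ih =>
      have e1 : (fun (x : G.Ob) (l : List G.Ar) => ∑ n ∈ Finset.range (N + 1),
          ((-1 : ℤ) ^ n) • powG G (unitG G e) (nuG G h R) n x l) =
          (fun x l => ∑ n ∈ Finset.range N,
            ((-1 : ℤ) ^ n) • powG G (unitG G e) (nuG G h R) n x l) +
          fun x l => ((-1 : ℝ) ^ N) • powG G (unitG G e) (nuG G h R) N x l := by
        funext x l
        rw [Finset.sum_range_succ, zsmul_real]
        rfl
      rw [e1]
      exact (s2 _ _ 0 ih ((s2 _ (powG G (unitG G e) (nuG G h R) N) (fun _ => (-1 : ℝ) ^ N)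
        (hpow N).1 (hpow N).1).2.2.2)).1
  refine ⟨?_, ?_, ?_⟩
  · exact smooth_congr (fun k x l => h x ∘ₗ ∑ n ∈ Finset.range (k + 1),
      ((-1 : ℤ) ^ n) • powG G (unitG G e) (nuG G h R) n x l)
      (fun k => (s1 (fun x _ => h x) _).2.1 h1 (hsum (k + 1))) (fun x l => rfl)
  · intro x l hl
    unfold conG
    rw [Finset.sum_eq_zero (fun n _ => by rw [(hpow n).2 x l hl, smul_zero]), LinearMap.comp_zero]
  · intro V F v l
    have hnuF : F.hom (nuG G h R) = nuC (fun v => h (F.b v)) (F.hom R) := by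
      funext v l
      cases l with
      | nil => rfl
      | cons u l =>
        show h (F.b v) ∘ₗ R (F.b v) (F.arr v (u :: l)) +
          R (F.b v) (F.arr v (u :: l)) ∘ₗ h (G.fin (F.b v) (F.arr v (u :: l))) = _
        rw [(f1 V F v (u :: l)).2.1]
        rfl
    have huF : F.hom (unitG G e) = unt (fun v => e (F.b v)) := by
      funext v l
      exact f7 V F ι e v l
    have hpF : ∀ n, F.hom (powG G (unitG G e) (nuG G h R) n) =
        cvPow (unt (fun v => e (F.b v))) (nuC (fun v => h (F.b v)) (F.hom R)) n := by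
      intro n
      induction n with
      | zero => exact huF
      | succ n ih =>
        funext v l
        have := f2 V F ι ι ι (nuG G h R) (powG G (unitG G e) (nuG G h R) n) v l
        rw [hnuF, ih] at this
        exact this
    show h (F.b v) ∘ₗ ∑ n ∈ Finset.range ((F.arr v l).length + 1),
      ((-1 : ℤ) ^ n) • powG G (unitG G e) (nuG G h R) n (F.b v) (F.arr v l) = _
    rw [(f1 V F v l).2.2]
    unfold conC
    congr 1
    refine Finset.sum_congr rfl fun n _ => ?_
    rw [← hpF n]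
    rfl

end Pool.Agent.Lib.MP_9b987c_gt.HC
end

section
/-!
# Smoothness of families along plots (SMP)
-/
namespace Pool.Agent.Lib.MP_9b987c_gt.HC

open scoped Manifold ContDiff BigOperators

namespace SMPM

variable {G : LieGpd}

/-- Smoothness along plots given by lists of maps. -/
def LSmooth (G : LieGpd) {ι κ : Type} [DecidableEq ι]
    (A : G.Ob → List G.Ar → ((ι → ℝ) →ₗ[ℝ] (κ → ℝ))) : Prop :=
  ∀ (d : ℕ) (U : Set (Eu d)) (x : Eu d → G.Ob) (gs : List (Eu d → G.Ar)), IsOpen U →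
    ContMDiffOn (𝓡 d) (𝓡 G.m) ∞ x U → (∀ g ∈ gs, ContMDiffOn (𝓡 d) (𝓡 G.n) ∞ g U) →
    (∀ u ∈ U, G.Chain (x u) (gs.map (fun g => g u))) →
    ∀ i j, ContDiffOn ℝ ∞ (fun u => A (x u) (gs.map (fun g => g u)) (Pi.single j 1) i) U

lemma ofFn_get_map {d : ℕ} (gs : List (Eu d → G.Ar)) (u : Eu d) :
    List.ofFn (fun a : Fin gs.length => gs.get a u) = gs.map (fun g => g u) := by
  conv_rhs => rw [← List.ofFn_get gs]
  rw [List.map_ofFn]
  rfl

lemma smooth_iff {ι κ : Type} [DecidableEq ι] {A : G.Ob → List G.Ar → ((ι → ℝ) →ₗ[ℝ] (κ → ℝ))} :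
    G.Smooth A ↔ LSmooth G A := by
  constructor
  · intro h d U x gs hU hx hg hc i j
    have h1 := h d gs.length U x (fun a => gs.get a) hU hx (fun a => hg _ (List.get_mem gs a))
      (fun u hu => by rw [ofFn_get_map]; exact hc u hu) i j
    refine h1.congr (fun u _ => ?_)
    rw [ofFn_get_map]
  · intro h d k U x g hU hx hg hc i j
    have key : ∀ u, (List.ofFn g).map (fun g => g u) = List.ofFn (fun a => g a u) := by
      intro u
      rw [List.map_ofFn]
      rfl
    have h1 := h d U x (List.ofFn g) hU hx (fun g' hg' => by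
      obtain ⟨a, rfl⟩ := (List.mem_ofFn' g g').1 hg'
      exact hg a) (fun u hu => by rw [key]; exact hc u hu) i j
    refine h1.congr (fun u _ => ?_)
    rw [key]

lemma chain_take {x : G.Ob} {l : List G.Ar} (h : G.Chain x l) (j : ℕ) : G.Chain x (l.take j) := by
  induction l generalizing x j with
  | nil => simp [LieGpd.Chain]
  | cons g l ih =>
    cases j with
    | zero => simp [LieGpd.Chain]
    | succ j => exact ⟨h.1, ih h.2 j⟩

lemma chain_drop {x : G.Ob} {l : List G.Ar} (h : G.Chain x l) (j : ℕ) :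
    G.Chain (G.fin x (l.take j)) (l.drop j) := by
  induction l generalizing x j with
  | nil => simp [LieGpd.Chain]
  | cons g l ih =>
    cases j with
    | zero => exact h
    | succ j => exact ih h.2 j

lemma chain_glue {x : G.Ob} {l : List G.Ar} (j : ℕ) (h : G.Chain x (l.take j))
    (h' : G.Chain (G.fin x (l.take j)) (l.drop j)) : G.Chain x l := by
  induction l generalizing x j with
  | nil => simp [LieGpd.Chain]
  | cons g l ih =>
    cases j with
    | zero => exact h'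
    | succ j => exact ⟨h.1, ih j h.2 h'⟩

lemma fin_smooth {d : ℕ} {U : Set (Eu d)} (gs : List (Eu d → G.Ar)) (x : Eu d → G.Ob)
    (hx : ContMDiffOn (𝓡 d) (𝓡 G.m) ∞ x U) (hg : ∀ g ∈ gs, ContMDiffOn (𝓡 d) (𝓡 G.n) ∞ g U) :
    ContMDiffOn (𝓡 d) (𝓡 G.m) ∞ (fun u => G.fin (x u) (gs.map (fun g => g u))) U := by
  induction gs generalizing x with
  | nil => exact hx
  | cons g gs ih =>
    have h1 : ContMDiffOn (𝓡 d) (𝓡 G.m) ∞ (fun u => G.src (g u)) U :=
      G.src_subm.contMDiff.comp_contMDiffOn (hg g (by simp))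
    exact ih (fun u => G.src (g u)) h1 (fun g' hg' => hg g' (by simp [hg']))

lemma comp_entry {ι κ μ : Type} [DecidableEq ι] [Fintype κ] [DecidableEq κ]
    (F : (κ → ℝ) →ₗ[ℝ] (μ → ℝ)) (F' : (ι → ℝ) →ₗ[ℝ] (κ → ℝ)) (i : μ) (j : ι) :
    (F ∘ₗ F') (Pi.single j 1) i = ∑ k, F' (Pi.single j 1) k * F (Pi.single k 1) i := by
  rw [LinearMap.comp_apply]
  have h : F' (Pi.single j 1) = ∑ k, F' (Pi.single j 1) k • (Pi.single k (1:ℝ) : κ → ℝ) := by
    funext a
    rw [Finset.sum_apply]
    simp [Pi.single_apply]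
  conv_lhs => rw [h]
  rw [map_sum, Finset.sum_apply]
  refine Finset.sum_congr rfl (fun k _ => ?_)
  rw [map_smul, Pi.smul_apply, smul_eq_mul]

lemma comp_smoothOn {ι κ μ : Type} [DecidableEq ι] [Fintype κ] [DecidableEq κ] {d : ℕ}
    {U : Set (Eu d)} {F : Eu d → (κ → ℝ) →ₗ[ℝ] (μ → ℝ)} {F' : Eu d → (ι → ℝ) →ₗ[ℝ] (κ → ℝ)}
    (hF : ∀ i j, ContDiffOn ℝ ∞ (fun u => F u (Pi.single j 1) i) U)
    (hF' : ∀ i j, ContDiffOn ℝ ∞ (fun u => F' u (Pi.single j 1) i) U) (i : μ) (j : ι) :
    ContDiffOn ℝ ∞ (fun u => (F u ∘ₗ F' u) (Pi.single j 1) i) U := by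
  simp only [comp_entry]
  exact ContDiffOn.sum (fun k _ => (hF' k j).mul (hF i k))

lemma starG_smooth {ι κ μ : Type} [DecidableEq ι] [Fintype κ] [DecidableEq κ]
    {A : G.Ob → List G.Ar → (κ → ℝ) →ₗ[ℝ] (μ → ℝ)} {B : G.Ob → List G.Ar → (ι → ℝ) →ₗ[ℝ] (κ → ℝ)}
    (hA : G.Smooth A) (hB : G.Smooth B) : G.Smooth (starG G A B) := by
  rw [smooth_iff] at hA hB ⊢
  intro d U x gs hU hx hg hc i j
  have h1 : ∀ t, t ∈ Finset.range (gs.length + 1) → ContDiffOn ℝ ∞ (fun u =>
      (A (x u) ((gs.map (fun g => g u)).take t) ∘ₗ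
        B (G.fin (x u) ((gs.map (fun g => g u)).take t)) ((gs.map (fun g => g u)).drop t))
        (Pi.single j 1) i) U := by
    intro t _
    have ha := hA d U x (gs.take t) hU hx (fun g hg' => hg g (List.mem_of_mem_take hg'))
      (fun u hu => by rw [List.map_take]; exact chain_take (hc u hu) t)
    have hb := hB d U (fun u => G.fin (x u) ((gs.take t).map (fun g => g u))) (gs.drop t) hU
      (fin_smooth (gs.take t) x hx (fun g hg' => hg g (List.mem_of_mem_take hg')))
      (fun g hg' => hg g (List.mem_of_mem_drop hg'))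
      (fun u hu => by rw [List.map_take, List.map_drop]; exact chain_drop (hc u hu) t)
    have := comp_smoothOn ha hb i j
    simpa only [List.map_take, List.map_drop] using this
  refine (ContDiffOn.sum h1).congr (fun u _ => ?_)
  simp only [starG, List.length_map]
  rw [LinearMap.sum_apply, Finset.sum_apply]

lemma pull_chain {G' : LieGpd} (φ : Hypercover G' G) {x : G'.Ob} {l : List G'.Ar}
    (h : G'.Chain x l) : G.Chain (φ.ob x) (l.map φ.ar) := by
  induction l generalizing x with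
  | nil => simp [LieGpd.Chain]
  | cons g l ih =>
    refine ⟨?_, ?_⟩
    · rw [φ.tgt_ar, h.1]
    · rw [φ.src_ar]
      exact ih h.2

lemma th_pow_single {ι : Type} [DecidableEq ι] (deg : ι → ℤ) (k : ℕ) (j : ι) :
    ((th ℝ deg ^ k : Module.End ℝ (ι → ℝ)) : (ι → ℝ) →ₗ[ℝ] (ι → ℝ)) (Pi.single j 1) =
      (sgn ℝ (deg j)) ^ k • (Pi.single j (1:ℝ) : ι → ℝ) := by
  induction k with
  | zero => simp
  | succ k ih =>
    rw [pow_succ', Module.End.mul_apply, ih, map_smul, th_of_mem (single_mem j 1), smul_smul,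
      pow_succ]

end SMPM

open SMPM in
theorem specSMP : SpecSMP := by
  intro G ι κ μ _ _ _ _ _ _
  refine ⟨?_, ?_, ?_, ?_, ?_, ?_, ?_, ?_⟩
  · intro A B
    refine ⟨starG_smooth, ?_, ?_⟩
    · intro hA hB
      rw [smooth_iff] at hA hB ⊢
      intro d U x gs hU hx hg hc i j
      exact comp_smoothOn (hA d U x gs hU hx hg hc) (hB d U x gs hU hx hg hc) i j
    · intro hA hB x l hl
      rw [starG]
      refine Finset.sum_eq_zero (fun j _ => ?_)
      by_cases h : G.Chain x (l.take j)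
      · have h' : ¬ G.Chain (G.fin x (l.take j)) (l.drop j) := fun h' => hl (chain_glue j h h')
        rw [hB _ _ h', LinearMap.comp_zero]
      · rw [hA _ _ h, LinearMap.zero_comp]
  · intro A B c hA hB
    refine ⟨?_, ?_, ?_, ?_⟩
    · intro d k U x g hU hx hg hc i j
      exact (hA d k U x g hU hx hg hc i j).add (hB d k U x g hU hx hg hc i j)
    · intro d k U x g hU hx hg hc i j
      exact (hA d k U x g hU hx hg hc i j).sub (hB d k U x g hU hx hg hc i j)
    · intro d k U x g hU hx hg hc i j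
      exact (hA d k U x g hU hx hg hc i j).neg
    · intro d k U x g hU hx hg hc i j
      have h := (hA d k U x g hU hx hg hc i j).const_smul (c k)
      refine h.congr (fun u _ => ?_)
      simp only [List.length_ofFn, LinearMap.smul_apply, Pi.smul_apply]
  · intro e he
    constructor
    · intro d k U x g hU hx hg hc i j
      exact ((he i j).comp_contMDiffOn hx).contDiffOn
    · rw [smooth_iff]
      intro d U x gs hU hx hg hc i j
      exact ((he i j).comp_contMDiffOn (fin_smooth gs x hx hg)).contDiffOn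
  · intro e he
    rw [smooth_iff]
    intro d U x gs hU hx hg hc i j
    cases gs with
    | nil => exact ((he i j).comp_contMDiffOn hx).contDiffOn
    | cons g gs =>
      refine (contDiffOn_const (c := (0:ℝ))).congr (fun u _ => ?_)
      simp [unitG]
  · intro A deg hA d k U x g hU hx hg hc i j
    have h := (hA d k U x g hU hx hg hc i j).const_smul (cK k * (sgn ℝ (deg j)) ^ k)
    refine h.congr (fun u _ => ?_)
    simp only [tw, List.length_ofFn, LinearMap.smul_apply, Pi.smul_apply, LinearMap.comp_apply,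
      th_pow_single, map_smul, smul_eq_mul, mul_assoc]
  · intro F F'
    constructor
    · intro d k U x g hU hx hg hc i j
      exact contDiffOn_const
    · intro d k U x g hU hx hg hc i j
      exact contDiffOn_const
  · intro G' φ A hA
    rw [smooth_iff] at hA ⊢
    intro d U x gs hU hx hg hc i j
    have h := hA d U (fun u => φ.ob (x u)) (gs.map (fun g u => φ.ar (g u))) hU
      (φ.ob_subm.contMDiff.comp_contMDiffOn hx)
      (fun g' hg' => by
        obtain ⟨g, hg1, rfl⟩ := List.mem_map.1 hg'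
        exact φ.ar_smooth.comp_contMDiffOn (hg g hg1))
      (fun u hu => by
        have h1 := pull_chain φ (hc u hu)
        rw [List.map_map] at h1 ⊢
        exact h1) i j
    refine h.congr (fun u hu => ?_)
    rw [pullG, if_pos (hc u hu), List.map_map, List.map_map]
    rfl
  · intro G' φ e he i j
    exact (he i j).comp φ.ob_subm.contMDiff

end Pool.Agent.Lib.MP_9b987c_gt.HC
end

section
/-!
# Pullbacks along hypercovers (PUL)
-/
namespace Pool.Agent.Lib.MP_9b987c_gt.HC

open scoped Manifold ContDiff BigOperators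

namespace PULM

open SMPM

variable {G' G : LieGpd}

lemma frame_chain {V : Type} (F : Frame G V) (v : V) (l : List V) :
    G.Chain (F.b v) (F.arr v l) := by
  induction l generalizing v with
  | nil => simp [LieGpd.Chain, Frame.arr]
  | cons u l ih =>
    refine ⟨F.tgt_c v u, ?_⟩
    rw [F.src_c]
    exact ih u

lemma push_arr (φ : Hypercover G' G) {V : Type} (F : Frame G' V) (v : V) (l : List V) :
    (F.arr v l).map φ.ar = (F.push φ).arr v l := by
  induction l generalizing v with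
  | nil => rfl
  | cons u l ih =>
    simp only [Frame.arr, List.map_cons, ih]
    rfl

lemma hom_pull (φ : Hypercover G' G) {V : Type} (F : Frame G' V) {ι κ : Type}
    (A : G.Ob → List G.Ar → (ι → ℝ) →ₗ[ℝ] (κ → ℝ)) : F.hom (pullG φ A) = (F.push φ).hom A := by
  funext v l
  rw [Frame.hom, pullG, if_pos (frame_chain F v l), push_arr]
  rfl

lemma fin_map (φ : Hypercover G' G) (x : G'.Ob) (l : List G'.Ar) :
    G.fin (φ.ob x) (l.map φ.ar) = φ.ob (G'.fin x l) := by
  induction l generalizing x with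
  | nil => rfl
  | cons g l ih =>
    simp only [List.map_cons, LieGpd.fin]
    rw [φ.src_ar]
    exact ih _

lemma pull_zero (φ : Hypercover G' G) {ι κ : Type}
    (A : G.Ob → List G.Ar → (ι → ℝ) →ₗ[ℝ] (κ → ℝ)) (x : G'.Ob) (l : List G'.Ar)
    (h : ¬ G'.Chain x l) : pullG φ A x l = 0 := by
  rw [pullG, if_neg h]

lemma pull_star (φ : Hypercover G' G) {ι κ μ : Type} (A : G.Ob → List G.Ar → (κ → ℝ) →ₗ[ℝ] (μ → ℝ))
    (B : G.Ob → List G.Ar → (ι → ℝ) →ₗ[ℝ] (κ → ℝ)) :
    pullG φ (starG G A B) = starG G' (pullG φ A) (pullG φ B) := by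
  funext x l
  by_cases hc : G'.Chain x l
  · rw [pullG, if_pos hc, starG, starG, List.length_map]
    refine Finset.sum_congr rfl (fun j _ => ?_)
    rw [pullG, pullG, if_pos (chain_take hc j), if_pos (chain_drop hc j), ← List.map_take,
      ← List.map_drop, fin_map]
  · rw [pull_zero φ _ x l hc, starG]
    symm
    refine Finset.sum_eq_zero (fun j _ => ?_)
    by_cases h : G'.Chain x (l.take j)
    · have h' : ¬ G'.Chain (G'.fin x (l.take j)) (l.drop j) := fun h' => hc (chain_glue j h h')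
      rw [pull_zero φ _ _ _ h', LinearMap.comp_zero]
    · rw [pull_zero φ _ _ _ h, LinearMap.zero_comp]

end PULM

open PULM in
theorem specPUL : SpecPUL := by
  intro G' G φ ι κ μ _ _ _ _ _ _ deg deg' e R e' R'
  have hS := specSMP G ι κ μ
  have hS2 := specSMP G ι ι ι
  have hco : ∀ (t : ℤ) (A : G.Ob → List G.Ar → (ι → ℝ) →ₗ[ℝ] (κ → ℝ)), HCo G deg deg' t e e' A →
      HCo G' deg deg' t (fun x => e (φ.ob x)) (fun x => e' (φ.ob x)) (pullG φ A) := by
    intro t A hA
    refine ⟨pull_zero φ A, hS.2.2.2.2.2.2.1 G' φ A hA.smooth, ?_⟩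
    intro V F
    rw [hom_pull]
    exact hA.co V (F.push φ)
  refine ⟨?_, hco, ?_, ?_, ?_, ?_, ?_⟩
  · intro h
    refine ⟨hS2.2.2.2.2.2.2.2 G' φ e h.e_smooth, pull_zero φ R, hS2.2.2.2.2.2.2.1 G' φ R h.smooth, ?_⟩
    intro V F
    rw [hom_pull]
    exact h.sr V (F.push φ)
  · intro A hA V F v l
    rw [hom_pull, hom_pull, hom_pull]
    exact hA V (F.push φ) v l
  · rintro A B ⟨H, hH, hD⟩
    refine ⟨pullG φ H, hco _ _ hH, ?_⟩
    intro V F v l
    rw [hom_pull, hom_pull, hom_pull, hom_pull, hom_pull]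
    exact hD V (F.push φ) v l
  · intro A B _ _
    exact pull_star φ A B
  · funext x l
    cases l with
    | nil => simp [pullG, unitG, LieGpd.Chain]
    | cons g l => simp [pullG, unitG]
  · intro A x
    simp [pullG, LieGpd.Chain]

end Pool.Agent.Lib.MP_9b987c_gt.HC
end

section
/-!
# Module CTGN: category facts for representations up to homotopy without unit conditions
-/
namespace Pool.Agent.Lib.MP_9b987c_gt.HC.NU

open scoped Manifold ContDiff BigOperators

namespace CTGNM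

open CNGM DLBM PULM

variable {G : LieGpd} {ι κ μ : Type} [Fintype ι] [DecidableEq ι] [Fintype κ] [DecidableEq κ]
  [Fintype μ] [DecidableEq μ]

lemma cl0 {dF : κ → ℤ} {RE : G.Ob → List G.Ar → (ι → ℝ) →ₗ[ℝ] (ι → ℝ)}
    {RF : G.Ob → List G.Ar → (κ → ℝ) →ₗ[ℝ] (κ → ℝ)} {B : G.Ob → List G.Ar → (ι → ℝ) →ₗ[ℝ] (κ → ℝ)}
    (h : HCl G dF RE RF B) (V : Type) (F : Frame G V) :
    DD dF 0 (F.hom RE) (F.hom RF) (F.hom B) = 0 := by
  funext v l
  exact h V F v l

/-- Products of cochains of total degree `0`. -/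
lemma star_co (hFRM : SpecFRM) {dE : ι → ℤ} {dF : κ → ℤ} {dG : μ → ℤ}
    {eE : G.Ob → (ι → ℝ) →ₗ[ℝ] (ι → ℝ)} {eF : G.Ob → (κ → ℝ) →ₗ[ℝ] (κ → ℝ)}
    {eG : G.Ob → (μ → ℝ) →ₗ[ℝ] (μ → ℝ)} {A : G.Ob → List G.Ar → (κ → ℝ) →ₗ[ℝ] (μ → ℝ)}
    {B : G.Ob → List G.Ar → (ι → ℝ) →ₗ[ℝ] (κ → ℝ)} (hA : HCo G dF dG 0 eF eG A)
    (hB : HCo G dE dF 0 eE eF B) : HCo G dE dG 0 eE eG (starG G A B) := by
  have hS := specSMP G ι κ μ
  refine ⟨(hS.1 A B).2.2 hA.zero hB.zero, (hS.1 A B).1 hA.smooth hB.smooth, fun V F => ?_⟩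
  rw [hom_star hFRM]
  have := co_cv (hA.co V F) (hB.co V F)
  rw [add_zero] at this
  exact this

/-- Products of closed cochains of total degree `0`. -/
lemma star_cl (hFRM : SpecFRM) {dE : ι → ℤ} {dF : κ → ℤ} {dG : μ → ℤ}
    {eE : G.Ob → (ι → ℝ) →ₗ[ℝ] (ι → ℝ)} {eF : G.Ob → (κ → ℝ) →ₗ[ℝ] (κ → ℝ)}
    {eG : G.Ob → (μ → ℝ) →ₗ[ℝ] (μ → ℝ)}
    {RE : G.Ob → List G.Ar → (ι → ℝ) →ₗ[ℝ] (ι → ℝ)}
    {RF : G.Ob → List G.Ar → (κ → ℝ) →ₗ[ℝ] (κ → ℝ)}
    {RG : G.Ob → List G.Ar → (μ → ℝ) →ₗ[ℝ] (μ → ℝ)}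
    {A : G.Ob → List G.Ar → (κ → ℝ) →ₗ[ℝ] (μ → ℝ)}
    {B : G.Ob → List G.Ar → (ι → ℝ) →ₗ[ℝ] (κ → ℝ)} (hA : HCo G dF dG 0 eF eG A)
    (_hB : HCo G dE dF 0 eE eF B) (clA : HCl G dG RF RG A) (clB : HCl G dF RE RF B) :
    HCl G dG RE RG (starG G A B) := by
  intro V F v l
  have h := leib (F.hom RE) (F.hom RF) (F.hom RG) 0 (sg_of_deg (hA.co V F).deg_A) (F.hom B) v l
  rw [zero_add, cl0 clA V F, cl0 clB V F, cv_zero_left, cv_zero_right, smul_zero, zero_add] at h
  rw [hom_star hFRM]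
  exact h

end CTGNM

open CNGM DLBM PULM CTGNM in
theorem specCTGN (hHATN : SpecHATN) (hHAT : SpecHAT) (hFRM : SpecFRM) : SpecCTGN := by
  intro G ι κ μ _ _ _ _ _ _ dE dF dG eE RE eF RF eG RG hE hF hG
  have pE : ∀ (V : Type) (F : Frame G V), PreRuth dE (fun v => eE (F.b v)) (F.hom (tw dE RE)) :=
    fun V F => ((hHATN G ι κ dE dF eE RE eF RF).1.1 hE).sr V F
  have T := hHAT G ι κ μ dE dF eE RE eF RF
  have TE := hHAT G ι ι ι dE dE eE RE eE RE
  have TF := hHAT G κ κ κ dF dF eF RF eF RF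
  refine ⟨?_, ?_, ?_, ?_, ?_⟩
  · -- the identity
    rw [(hHATN G ι ι dE dE eE RE eE RE).2 (unitG G eE) hE hE, TE.2.2.2.2.1]
    refine ⟨⟨unit_zero eE, (specSMP G ι ι ι).2.2.2.1 eE hE.e_smooth, fun V F => ?_⟩,
      fun V F v l => ?_⟩
    · rw [hom_unit hFRM]
      exact co_unt (pE V F).e_idem (pE V F).e_deg
    · rw [hom_unit hFRM]
      exact DD_unt (pE V F) v l
  · -- composition
    intro A B hA hB
    have hA' := ((hHATN G κ μ dF dG eF RF eG RG).2 A hF hG).1 hA
    have hB' := ((hHATN G ι κ dE dF eE RE eF RF).2 B hE hF).1 hB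
    rw [(hHATN G ι μ dE dG eE RE eG RG).2 (starG G A B) hE hG, T.2.2.2.1 A B hB.F_deg]
    exact ⟨star_co hFRM hA'.1 hB'.1, star_cl hFRM hA'.1 hB'.1 hA'.2 hB'.2⟩
  · -- unit laws
    intro B hB
    constructor
    · refine ext_frames hFRM ?_ hB.F_zero (fun V F v l => ?_)
      · exact ((specSMP G ι κ κ).1 (unitG G eF) B).2.2 (unit_zero eF) hB.F_zero
      · rw [hom_star hFRM, hom_unit hFRM, cv_unt_left]
        exact hB.F_left _ _
    · refine ext_frames hFRM ?_ hB.F_zero (fun V F v l => ?_)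
      · exact ((specSMP G ι ι κ).1 B (unitG G eE)).2.2 hB.F_zero (unit_zero eE)
      · rw [hom_star hFRM, hom_unit hFRM, cv_unt_right]
        have h := hB.F_right (F.b v) (F.arr v l)
        rw [((hFRM G).1 V F v l).2.1] at h
        exact h
  · intro ν A B C
    funext x l
    exact starG_assoc A B C x l
  · -- pullbacks
    intro G' φ
    have hpull : ∀ (ι : Type) [Fintype ι] [DecidableEq ι] (dE : ι → ℤ)
        (eE : G.Ob → (ι → ℝ) →ₗ[ℝ] (ι → ℝ)) (RE : G.Ob → List G.Ar → (ι → ℝ) →ₗ[ℝ] (ι → ℝ)),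
        IsRuth0 G dE eE RE → IsRuth0 G' dE (fun x => eE (φ.ob x)) (pullG φ RE) := by
      intro ι _ _ dE eE RE hE
      have h := (hHATN G ι ι dE dE eE RE eE RE).1.1 hE
      rw [(hHATN G' ι ι dE dE (fun x => eE (φ.ob x)) (pullG φ RE) (fun x => eE (φ.ob x))
        (pullG φ RE)).1, (hHAT G ι ι ι dE dE eE RE eE RE).2.2.2.2.2.2 G' φ RE]
      have hS2 := specSMP G ι ι ι
      refine ⟨hS2.2.2.2.2.2.2.2 G' φ eE h.e_smooth, pull_zero φ _,
        hS2.2.2.2.2.2.2.1 G' φ _ h.smooth, ?_⟩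
      intro V F
      rw [hom_pull]
      exact h.sr V (F.push φ)
    refine ⟨hpull ι dE eE RE hE, fun B hB => ?_⟩
    have hB' := ((hHATN G ι κ dE dF eE RE eF RF).2 B hE hF).1 hB
    rw [(hHATN G' ι κ dE dF (fun x => eE (φ.ob x)) (pullG φ RE) (fun x => eF (φ.ob x))
      (pullG φ RF)).2 (pullG φ B) (hpull ι dE eE RE hE) (hpull κ dF eF RF hF),
      TE.2.2.2.2.2.2 G' φ RE, TF.2.2.2.2.2.2 G' φ RF, T.2.2.2.2.2.2 G' φ B]
    constructor
    · refine ⟨pull_zero φ _, (specSMP G ι κ μ).2.2.2.2.2.2.1 G' φ _ hB'.1.smooth, ?_⟩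
      intro V F
      rw [hom_pull]
      exact hB'.1.co V (F.push φ)
    · intro V F v l
      rw [hom_pull, hom_pull, hom_pull]
      exact hB'.2 V (F.push φ) v l

end Pool.Agent.Lib.MP_9b987c_gt.HC.NU
end

section
/-!
# Module CTG: category facts for the public definitions
-/
namespace Pool.Agent.Lib.MP_9b987c_gt.HC

open scoped Manifold ContDiff BigOperators

namespace CTGM

variable {G' G : LieGpd} {ι : Type} [Fintype ι] [DecidableEq ι]

/-- Forget the unit conditions. -/
lemma forget {deg : ι → ℤ} {e : G.Ob → (ι → ℝ) →ₗ[ℝ] (ι → ℝ)}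
    {R : G.Ob → List G.Ar → (ι → ℝ) →ₗ[ℝ] (ι → ℝ)} (h : IsRuth G deg e R) :
    NU.IsRuth0 G deg e R :=
  ⟨h.e_smooth, h.e_idem, h.e_deg, h.R_zero, h.R_smooth, h.R_deg, h.R_left, h.R_right, h.eqn⟩

/-- Pullbacks satisfy the unit conditions. -/
lemma pull_unit (φ : Hypercover G' G) {deg : ι → ℤ} {e : G.Ob → (ι → ℝ) →ₗ[ℝ] (ι → ℝ)}
    {R : G.Ob → List G.Ar → (ι → ℝ) →ₗ[ℝ] (ι → ℝ)} (h : IsRuth G deg e R)
    (h0 : NU.IsRuth0 G' deg (fun x => e (φ.ob x)) (pullG φ R)) :
    IsRuth G' deg (fun x => e (φ.ob x)) (pullG φ R) where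
  e_smooth := h0.e_smooth
  e_idem := h0.e_idem
  e_deg := h0.e_deg
  R_zero := h0.R_zero
  R_smooth := h0.R_smooth
  R_deg := h0.R_deg
  R_left := h0.R_left
  R_right := h0.R_right
  eqn := h0.eqn
  unit_one := by
    intro x
    have hc : G'.Chain x [G'.one x] := ⟨G'.tgt_one x, trivial⟩
    rw [pullG, if_pos hc, List.map_cons, List.map_nil, φ.ar_one]
    exact h.unit_one _
  unit_mem := by
    intro x l hl hy
    by_cases hc : G'.Chain x l
    · rw [pullG, if_pos hc]
      obtain ⟨y, hy⟩ := hy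
      refine h.unit_mem _ _ (by rwa [List.length_map]) ⟨φ.ob y, ?_⟩
      rw [← φ.ar_one]
      exact List.mem_map_of_mem hy
    · exact PULM.pull_zero φ R x l hc

end CTGM

open CTGM in
theorem specCTG (hCTGN : NU.SpecCTGN) : SpecCTG := by
  intro G ι κ μ _ _ _ _ _ _ dE dF dG eE RE eF RF eG RG hE hF hG
  obtain ⟨h1, h2, h3, -, h5⟩ := hCTGN G ι κ μ dE dF dG eE RE eF RF eG RG (forget hE) (forget hF)
    (forget hG)
  exact ⟨h1, h2, h3, fun G' φ => ⟨pull_unit φ hE (h5 G' φ).1, (h5 G' φ).2⟩⟩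

end Pool.Agent.Lib.MP_9b987c_gt.HC
end

section
/-!
# The two sign conventions (HAT)
-/
namespace Pool.Agent.Lib.MP_9b987c_gt.HC

open scoped Manifold ContDiff BigOperators

namespace HATM

open SMPM

section Signs

lemma cK_zero : cK 0 = 1 := by simp [cK]

lemma cK_succ (n : ℕ) : cK (n + 1) = cK n * (-1) ^ n := by
  rw [cK, cK, ← pow_add, Nat.triangle_succ]

lemma cK_one : cK 1 = 1 := by rw [cK_succ, cK_zero]; simp

lemma cK_mul_self (n : ℕ) : cK n * cK n = 1 := by
  rw [cK, ← pow_add, ← two_mul, pow_mul]; simp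

lemma neg_one_pow_mul_self (n : ℕ) : ((-1 : ℝ)) ^ n * (-1) ^ n = 1 := by
  rw [← pow_add, ← two_mul, pow_mul]; simp

lemma cK_add (j m : ℕ) : cK (j + m) = cK j * cK m * (-1) ^ (j * m) := by
  induction j with
  | zero => simp [cK_zero]
  | succ j ih =>
    rw [show j + 1 + m = (j + m) + 1 by ring, cK_succ, ih, cK_succ, Nat.succ_mul, pow_add, pow_add]
    ring

variable {ι κ μ : Type}

/-- powers of `θ` -/
def P (deg : ι → ℤ) (k : ℕ) : (ι → ℝ) →ₗ[ℝ] (ι → ℝ) := (th ℝ deg ^ k : Module.End ℝ (ι → ℝ))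

lemma P_zero (deg : ι → ℤ) : P deg 0 = LinearMap.id := by
  simp only [P, pow_zero]; rfl

lemma P_one (deg : ι → ℤ) : P deg 1 = th ℝ deg := by
  simp only [P, pow_one]

lemma P_add (deg : ι → ℤ) (j m : ℕ) : P deg (j + m) = P deg j ∘ₗ P deg m := by
  simp only [P, pow_add]; rfl

lemma P_P (deg : ι → ℤ) (k : ℕ) : P deg k ∘ₗ P deg k = LinearMap.id := by
  induction k with
  | zero => rw [P_zero]; rfl
  | succ k ih =>
    have h1 : P deg (k + 1) = P deg k ∘ₗ th ℝ deg := by rw [P_add, P_one]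
    have h2 : P deg (k + 1) = th ℝ deg ∘ₗ P deg k := by rw [add_comm, P_add, P_one]
    conv_lhs => lhs; rw [h1]
    rw [h2, LinearMap.comp_assoc, ← LinearMap.comp_assoc _ (th ℝ deg) (th ℝ deg), th_comp_th,
      LinearMap.id_comp, ih]

lemma P_deg (deg : ι → ℤ) (k : ℕ) : Deg deg deg (P deg k) 0 := by
  induction k with
  | zero => rw [P_zero]; exact deg_id
  | succ k ih =>
    rw [P_add, P_one]
    exact (Deg.comp ih deg_th).congr (by ring)

lemma P_comp [Finite ι] {deg : ι → ℤ} {deg' : κ → ℤ} {B : (ι → ℝ) →ₗ[ℝ] (κ → ℝ)} {s : ℤ}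
    (h : Deg deg deg' B s) (j : ℕ) : P deg' j ∘ₗ B = sgn ℝ (j * s) • (B ∘ₗ P deg j) := by
  induction j with
  | zero => rw [P_zero, P_zero]; simp [sgn_zero]
  | succ j ih =>
    have h1 : P deg' (j + 1) = P deg' j ∘ₗ th ℝ deg' := by rw [P_add, P_one]
    have h2 : P deg (j + 1) = P deg j ∘ₗ th ℝ deg := by rw [P_add, P_one]
    rw [h1, LinearMap.comp_assoc, th_comp_of_deg h, LinearMap.comp_smul, ← LinearMap.comp_assoc, ih,
      h2, LinearMap.smul_comp, smul_smul, LinearMap.comp_assoc, Nat.cast_succ, add_mul, one_mul,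
      sgn_add, mul_comm]

/-- the twist of a component -/
def tws (deg : ι → ℤ) (k : ℕ) (X : (ι → ℝ) →ₗ[ℝ] (κ → ℝ)) : (ι → ℝ) →ₗ[ℝ] (κ → ℝ) :=
  cK k • (X ∘ₗ P deg k)

lemma tws_tws (deg : ι → ℤ) (k : ℕ) (X : (ι → ℝ) →ₗ[ℝ] (κ → ℝ)) :
    tws deg k (tws deg k X) = X := by
  rw [tws, tws, LinearMap.smul_comp, smul_smul, cK_mul_self, one_smul, LinearMap.comp_assoc, P_P,
    LinearMap.comp_id]

lemma tws_zero (deg : ι → ℤ) (k : ℕ) : tws deg k (0 : (ι → ℝ) →ₗ[ℝ] (κ → ℝ)) = 0 := by
  rw [tws, LinearMap.zero_comp, smul_zero]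

lemma tws_add (deg : ι → ℤ) (k : ℕ) (X Y : (ι → ℝ) →ₗ[ℝ] (κ → ℝ)) :
    tws deg k (X + Y) = tws deg k X + tws deg k Y := by
  rw [tws, tws, tws, LinearMap.add_comp, smul_add]

lemma tws_sub (deg : ι → ℤ) (k : ℕ) (X Y : (ι → ℝ) →ₗ[ℝ] (κ → ℝ)) :
    tws deg k (X - Y) = tws deg k X - tws deg k Y := by
  rw [tws, tws, tws, LinearMap.sub_comp, smul_sub]

lemma tws_smul (deg : ι → ℤ) (k : ℕ) (c : ℝ) (X : (ι → ℝ) →ₗ[ℝ] (κ → ℝ)) :
    tws deg k (c • X) = c • tws deg k X := by
  rw [tws, tws, LinearMap.smul_comp, smul_comm]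

lemma tws_sum {J : Type} (deg : ι → ℤ) (k : ℕ) (T : Finset J) (X : J → (ι → ℝ) →ₗ[ℝ] (κ → ℝ)) :
    tws deg k (∑ j ∈ T, X j) = ∑ j ∈ T, tws deg k (X j) := by
  classical
  induction T using Finset.induction_on with
  | empty => simp [tws_zero]
  | insert a T ha ih => rw [Finset.sum_insert ha, Finset.sum_insert ha, tws_add, ih]

lemma tws_eq_zero {deg : ι → ℤ} {k : ℕ} {X : (ι → ℝ) →ₗ[ℝ] (κ → ℝ)} : tws deg k X = 0 ↔ X = 0 := by
  constructor
  · intro h
    rw [← tws_tws deg k X, h, tws_zero]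
  · intro h
    rw [h, tws_zero]

lemma tws_deg {deg : ι → ℤ} {deg' : κ → ℤ} {k : ℕ} {X : (ι → ℝ) →ₗ[ℝ] (κ → ℝ)} {s : ℤ} :
    Deg deg deg' (tws deg k X) s ↔ Deg deg deg' X s := by
  have key : ∀ Y : (ι → ℝ) →ₗ[ℝ] (κ → ℝ), Deg deg deg' Y s → Deg deg deg' (tws deg k Y) s :=
    fun Y h => Deg.smul _ ((Deg.comp h (P_deg deg k)).congr (by ring))
  refine ⟨fun h => ?_, key X⟩
  rw [← tws_tws deg k X]
  exact key _ h

lemma tws_left {deg : ι → ℤ} {k : ℕ} {X : (ι → ℝ) →ₗ[ℝ] (κ → ℝ)} {E : (κ → ℝ) →ₗ[ℝ] (κ → ℝ)} :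
    E ∘ₗ tws deg k X = tws deg k X ↔ E ∘ₗ X = X := by
  have key : ∀ Y : (ι → ℝ) →ₗ[ℝ] (κ → ℝ), E ∘ₗ Y = Y → E ∘ₗ tws deg k Y = tws deg k Y := by
    intro Y h
    rw [tws, LinearMap.comp_smul, ← LinearMap.comp_assoc, h]
  refine ⟨fun h => ?_, key X⟩
  have := key _ h
  rwa [tws_tws] at this

lemma tws_right [Finite ι] {deg : ι → ℤ} {k : ℕ} {X : (ι → ℝ) →ₗ[ℝ] (κ → ℝ)} {E : (ι → ℝ) →ₗ[ℝ] (ι → ℝ)}
    (hE : Deg deg deg E 0) : tws deg k X ∘ₗ E = tws deg k X ↔ X ∘ₗ E = X := by
  have hc : P deg k ∘ₗ E = E ∘ₗ P deg k := by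
    rw [P_comp hE, mul_zero, sgn_zero, one_smul]
  have key : ∀ Y : (ι → ℝ) →ₗ[ℝ] (κ → ℝ), Y ∘ₗ E = Y → tws deg k Y ∘ₗ E = tws deg k Y := by
    intro Y h
    rw [tws, LinearMap.smul_comp, LinearMap.comp_assoc, hc, ← LinearMap.comp_assoc, h]
  refine ⟨fun h => ?_, key X⟩
  have := key _ h
  rwa [tws_tws] at this

lemma sgn_one_smul (X : (ι → ℝ) →ₗ[ℝ] (κ → ℝ)) : sgn ℝ 1 • X = -X := by
  apply LinearMap.ext
  intro z
  funext i
  simp [sgn_one]

lemma tws_comp [Finite ι] {deg : ι → ℤ} {deg' : κ → ℤ} (j m : ℕ) {s : ℤ} (A : (κ → ℝ) →ₗ[ℝ] (μ → ℝ))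
    {B : (ι → ℝ) →ₗ[ℝ] (κ → ℝ)} (hB : Deg deg deg' B (s - m)) :
    tws deg' j A ∘ₗ tws deg m B = tws deg (j + m) (sgn ℝ (j * s) • (A ∘ₗ B)) := by
  rw [tws, tws, tws, LinearMap.smul_comp, LinearMap.comp_smul, smul_smul, LinearMap.comp_assoc,
    ← LinearMap.comp_assoc _ B (P deg' j), P_comp hB, LinearMap.smul_comp, LinearMap.comp_smul,
    smul_smul, LinearMap.smul_comp, smul_smul, P_add, LinearMap.comp_assoc, LinearMap.comp_assoc]
  congr 1
  have h1 : sgn ℝ ((j : ℤ) * (s - m)) = sgn ℝ (j * s) * (-1) ^ (j * m) := by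
    rw [mul_sub, sgn_sub, ← Nat.cast_mul, sgn_natCast]
  rw [h1, cK_add]
  ring

lemma th_tws [Finite ι] {deg : ι → ℤ} {deg' : κ → ℤ} (n : ℕ) {s : ℤ} {X : (ι → ℝ) →ₗ[ℝ] (κ → ℝ)}
    (hX : Deg deg deg' X (s - n)) :
    th ℝ deg' ∘ₗ tws deg n X = tws deg (n + 1) (sgn ℝ s • X) := by
  rw [tws, tws, LinearMap.comp_smul, ← LinearMap.comp_assoc, th_comp_of_deg hX,
    LinearMap.smul_comp, smul_smul, LinearMap.smul_comp, smul_smul, add_comm n 1, P_add, P_one,
    LinearMap.comp_assoc]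
  congr 1
  rw [sgn_sub, sgn_natCast, add_comm 1 n, cK_succ]
  ring

end Signs

section Groupoid

variable {G : LieGpd}

lemma arr_length {V : Type} (F : Frame G V) (v : V) (l : List V) :
    (F.arr v l).length = l.length := by
  induction l generalizing v with
  | nil => rfl
  | cons u l ih => simp [Frame.arr, ih]

lemma fin_arr {V : Type} (F : Frame G V) (v : V) (l : List V) :
    G.fin (F.b v) (F.arr v l) = F.b (lst v l) := by
  induction l generalizing v with
  | nil => rfl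
  | cons u l ih =>
    simp only [Frame.arr, LieGpd.fin, lst_cons]
    rw [F.src_c]
    exact ih u

lemma rep_one {V : Type} (F : Frame G V) (v : V) (l : List V) (h : HasRep v l) :
    ∃ y, G.one y ∈ F.arr v l := by
  induction l generalizing v with
  | nil => exact absurd h (hasRep_nil v)
  | cons u l ih =>
    rcases h with h | h
    · subst h
      exact ⟨F.b v, by simp [Frame.arr, F.c_one]⟩
    · obtain ⟨y, hy⟩ := ih u h
      exact ⟨y, by simp [Frame.arr, hy]⟩

lemma frame_chain {V : Type} (F : Frame G V) (v : V) (l : List V) :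
    G.Chain (F.b v) (F.arr v l) := by
  induction l generalizing v with
  | nil => simp [LieGpd.Chain, Frame.arr]
  | cons u l ih =>
    refine ⟨F.tgt_c v u, ?_⟩
    rw [F.src_c]
    exact ih u

lemma face_length (j : ℕ) (l : List G.Ar) : (G.face j l).length = l.length - 1 := by
  induction l generalizing j with
  | nil => simp [LieGpd.face]
  | cons g l ih =>
    cases l with
    | nil => simp [LieGpd.face]
    | cons h l =>
      cases j with
      | zero => simp [LieGpd.face]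
      | succ j =>
        have := ih j
        simp only [LieGpd.face, List.length_cons] at this ⊢
        omega

/-- every chain comes from a frame -/
lemma exists_frame (hFRM : SpecFRM) {x : G.Ob} {l : List G.Ar} (h : G.Chain x l) :
    ∃ (V : Type) (F : Frame G V) (v : V) (l' : List V), F.b v = x ∧ F.arr v l' = l ∧
      ((∃ y, G.one y ∈ l) → HasRep v l') := by
  obtain ⟨-, -, -, -, f5, -, -, -, f9, -, -⟩ := hFRM G
  obtain ⟨l', h1, h2⟩ := f5 x l h
  refine ⟨_, wf G x, wf0 G x, l', h2, h1, ?_⟩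
  intro hy
  rw [← h1] at hy
  exact f9 x _ _ hy

variable {ι κ μ : Type}

lemma tw_apply (deg : ι → ℤ) (A : G.Ob → List G.Ar → (ι → ℝ) →ₗ[ℝ] (κ → ℝ)) (x : G.Ob)
    (l : List G.Ar) : tw deg A x l = tws deg l.length (A x l) := rfl

lemma hom_tw {V : Type} (F : Frame G V) (deg : ι → ℤ)
    (A : G.Ob → List G.Ar → (ι → ℝ) →ₗ[ℝ] (κ → ℝ)) (v : V) (l : List V) :
    F.hom (tw deg A) v l = tws deg l.length (A (F.b v) (F.arr v l)) := by
  rw [Frame.hom, tw_apply, arr_length]

/-- products of twisted families -/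
lemma star_tw [Finite ι] {deg : ι → ℤ} {deg' : κ → ℤ} {s : ℤ} (A : G.Ob → List G.Ar → (κ → ℝ) →ₗ[ℝ] (μ → ℝ))
    (B : G.Ob → List G.Ar → (ι → ℝ) →ₗ[ℝ] (κ → ℝ)) (hB : ∀ x l, Deg deg deg' (B x l) (s - l.length))
    (x : G.Ob) (l : List G.Ar) :
    starG G (tw deg' A) (tw deg B) x l =
      tws deg l.length (∑ j ∈ Finset.range (l.length + 1),
        sgn ℝ (j * s) • (A x (l.take j) ∘ₗ B (G.fin x (l.take j)) (l.drop j))) := by
  rw [starG, tws_sum]
  refine Finset.sum_congr rfl (fun j hj => ?_)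
  have hj' : j ≤ l.length := Nat.lt_succ_iff.1 (Finset.mem_range.1 hj)
  have h1 : (l.take j).length = j := by rw [List.length_take, min_eq_left hj']
  have h2 : (l.drop j).length = l.length - j := List.length_drop
  have hB' := hB (G.fin x (l.take j)) (l.drop j)
  rw [tw_apply, tw_apply, tws_comp _ _ _ hB', h1, h2, Nat.add_sub_cancel' hj']

/-- inner faces of twisted families -/
lemma face_tw [Finite ι] {deg : ι → ℤ} {deg' : κ → ℤ} {s : ℤ} (A : G.Ob → List G.Ar → (ι → ℝ) →ₗ[ℝ] (κ → ℝ))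
    (hA : ∀ x l, Deg deg deg' (A x l) (s - l.length)) (x : G.Ob) (l : List G.Ar) :
    th ℝ deg' ∘ₗ (∑ j ∈ Finset.range (l.length - 1), ((-1 : ℝ) ^ (j + 1)) • tw deg A x (G.face j l)) =
      tws deg l.length (sgn ℝ s • ∑ j ∈ Finset.range (l.length - 1),
        ((-1 : ℝ) ^ (j + 1)) • A x (G.face j l)) := by
  rcases Nat.eq_zero_or_pos l.length with h0 | h0
  · simp [h0, tws_zero]
  · rw [tws_smul, tws_sum, Finset.smul_sum]
    have : th ℝ deg' ∘ₗ (∑ j ∈ Finset.range (l.length - 1),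
        ((-1 : ℝ) ^ (j + 1)) • tw deg A x (G.face j l)) =
        ∑ j ∈ Finset.range (l.length - 1), th ℝ deg' ∘ₗ
          (((-1 : ℝ) ^ (j + 1)) • tw deg A x (G.face j l)) := by
      apply LinearMap.ext
      intro z
      simp only [LinearMap.comp_apply, LinearMap.sum_apply, map_sum]
    rw [this]
    refine Finset.sum_congr rfl (fun j _ => ?_)
    have hA' := hA x (G.face j l)
    rw [LinearMap.comp_smul, tw_apply, th_tws _ hA', face_length, Nat.sub_add_cancel h0, tws_smul,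
      tws_smul, smul_comm]

end Groupoid

end HATM

open HATM SMPM in
theorem specHAT (hFRM : SpecFRM) : SpecHAT := by
  intro G ι κ μ _ _ _ _ _ _ deg deg' e R e' R'
  obtain ⟨-, f2, -, f4, -, -, -, -, -, -, -⟩ := hFRM G
  have hS := specSMP G ι κ μ
  have hS2 := specSMP G ι ι ι
  have twtw : ∀ F : G.Ob → List G.Ar → (ι → ℝ) →ₗ[ℝ] (κ → ℝ), tw deg (tw deg F) = F := by
    intro F
    funext x l
    rw [tw_apply, tw_apply, tws_tws]
  have twtw2 : ∀ F : G.Ob → List G.Ar → (ι → ℝ) →ₗ[ℝ] (ι → ℝ), tw deg (tw deg F) = F := by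
    intro F
    funext x l
    rw [tw_apply, tw_apply, tws_tws]
  -- the equation of representations up to homotopy
  have eqR : (∀ x l, Deg deg deg (R x l) (1 - l.length)) → ∀ (V : Type) (F : Frame G V) v l,
      th ℝ deg ∘ₗ fc (F.hom (tw deg R)) v l + cv (F.hom (tw deg R)) (F.hom (tw deg R)) v l =
        tws deg l.length (∑ j ∈ Finset.range ((F.arr v l).length + 1),
          ((-1 : ℝ) ^ j) • (R (F.b v) ((F.arr v l).take j) ∘ₗ
            R (G.fin (F.b v) ((F.arr v l).take j)) ((F.arr v l).drop j)) -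
          ∑ j ∈ Finset.range ((F.arr v l).length - 1),
            ((-1 : ℝ) ^ (j + 1)) • R (F.b v) (G.face j (F.arr v l))) := by
    intro hR V F v l
    rw [← f2 V F, ← f4 V F, Frame.hom, star_tw (s := 1) R R hR]
    have h4 := face_tw (s := 1) R hR (F.b v) (F.arr v l)
    rw [arr_length] at h4 ⊢
    rw [h4, ← tws_add, sgn_one_smul, neg_add_eq_sub]
    simp only [mul_one, sgn_natCast]
  have eqF : (∀ x l, Deg deg deg (R x l) (1 - l.length)) →
      ∀ F : G.Ob → List G.Ar → (ι → ℝ) →ₗ[ℝ] (κ → ℝ), (∀ x l, Deg deg deg' (F x l) (0 - l.length)) →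
      ∀ (V : Type) (Fr : Frame G V) v l,
      DD deg' 0 (Fr.hom (tw deg R)) (Fr.hom (tw deg' R')) (Fr.hom (tw deg F)) v l =
        tws deg l.length (
          (∑ j ∈ Finset.range ((Fr.arr v l).length + 1), R' (Fr.b v) ((Fr.arr v l).take j) ∘ₗ
            F (G.fin (Fr.b v) ((Fr.arr v l).take j)) ((Fr.arr v l).drop j) +
          ∑ j ∈ Finset.range ((Fr.arr v l).length - 1),
            ((-1 : ℝ) ^ (j + 1)) • F (Fr.b v) (G.face j (Fr.arr v l))) -
          ∑ j ∈ Finset.range ((Fr.arr v l).length + 1),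
          ((-1 : ℝ) ^ j) • (F (Fr.b v) ((Fr.arr v l).take j) ∘ₗ
            R (G.fin (Fr.b v) ((Fr.arr v l).take j)) ((Fr.arr v l).drop j))) := by
    intro hR F hF V Fr v l
    rw [DD, ← f2 V Fr, ← f2 V Fr, ← f4 V Fr, Frame.hom, Frame.hom, star_tw (s := 1) F R hR,
      star_tw (s := 0) R' F hF]
    have h4 := face_tw (s := 0) F hF (Fr.b v) (Fr.arr v l)
    rw [arr_length] at h4 ⊢
    rw [h4, sgn_zero, one_smul, one_smul, ← tws_add, ← tws_sub]
    simp only [mul_one, mul_zero, sgn_natCast, sgn_zero, one_smul]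
    rw [add_comm (∑ j ∈ Finset.range (l.length - 1), _)]
  refine ⟨⟨?_, ?_⟩, ?_, twtw, ?_, ?_, ?_, ?_⟩
  · intro h
    refine ⟨h.e_smooth, fun x l hl => by rw [tw_apply, h.R_zero x l hl, tws_zero],
      hS2.2.2.2.2.1 R deg h.R_smooth, ?_⟩
    intro V F
    refine ⟨⟨fun v => h.e_idem _, fun v => h.e_deg _, ?_, ?_, ?_, ?_⟩, ?_, ?_⟩
    · intro v l
      rw [hom_tw, tws_deg]
      have := h.R_deg (F.b v) (F.arr v l)
      rwa [arr_length] at this
    · intro v l
      rw [hom_tw, tws_left]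
      exact h.R_left _ _
    · intro v l
      rw [hom_tw, tws_right (h.e_deg _)]
      have := h.R_right (F.b v) (F.arr v l)
      rwa [fin_arr] at this
    · intro v l
      rw [eqR h.R_deg V F v l, tws_eq_zero, sub_eq_zero]
      exact (h.eqn _ _ (frame_chain F v l)).symm
    · intro v
      rw [hom_tw]
      simp only [Frame.arr, F.c_one, h.unit_one, List.length_cons, List.length_nil, zero_add]
      rw [tws, cK_one, one_smul, P_one]
    · intro v l hl hr
      rw [hom_tw, h.unit_mem _ _ (by rw [arr_length]; exact hl) (rep_one F v l hr), tws_zero]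
  · intro h
    have hz : ∀ x l, ¬ G.Chain x l → R x l = 0 := by
      intro x l hl
      have := h.zero x l hl
      rwa [tw_apply, tws_eq_zero] at this
    have hed : ∀ x, Deg deg deg (e x) 0 := by
      intro x
      obtain ⟨V, F, v, l', rfl, -, -⟩ := exists_frame hFRM (x := x) (l := []) (by simp [LieGpd.Chain])
      exact (h.sr V F).e_deg v
    have hRd : ∀ x l, Deg deg deg (R x l) (1 - l.length) := by
      intro x l
      by_cases hl : G.Chain x l
      · obtain ⟨V, F, v, l', rfl, rfl, -⟩ := exists_frame hFRM hl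
        have := (h.sr V F).deg_R v l'
        rw [hom_tw, tws_deg] at this
        rwa [arr_length]
      · rw [hz x l hl]
        exact Deg.zero
    refine ⟨h.e_smooth, ?_, hed, hz, ?_, hRd, ?_, ?_, ?_, ?_, ?_⟩
    · intro x
      obtain ⟨V, F, v, l', rfl, -, -⟩ := exists_frame hFRM (x := x) (l := []) (by simp [LieGpd.Chain])
      exact (h.sr V F).e_idem v
    · have := hS2.2.2.2.2.1 (tw deg R) deg h.smooth
      rwa [twtw2] at this
    · intro x l
      by_cases hl : G.Chain x l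
      · obtain ⟨V, F, v, l', rfl, rfl, -⟩ := exists_frame hFRM hl
        have := (h.sr V F).left v l'
        rwa [hom_tw, tws_left] at this
      · rw [hz x l hl, LinearMap.comp_zero]
    · intro x l
      by_cases hl : G.Chain x l
      · obtain ⟨V, F, v, l', rfl, rfl, -⟩ := exists_frame hFRM hl
        have := (h.sr V F).right v l'
        rw [hom_tw, tws_right (hed _)] at this
        rwa [fin_arr]
      · rw [hz x l hl, LinearMap.zero_comp]
    · intro x l hl
      obtain ⟨V, F, v, l', rfl, rfl, -⟩ := exists_frame hFRM hl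
      have := (h.sr V F).eqn v l'
      rw [eqR hRd V F v l', tws_eq_zero, sub_eq_zero] at this
      exact this.symm
    · intro x
      obtain ⟨V, F, v, l', rfl, -, -⟩ := exists_frame hFRM (x := x) (l := []) (by simp [LieGpd.Chain])
      have := (h.sr V F).unit_one v
      rw [hom_tw] at this
      simp only [Frame.arr, F.c_one, List.length_cons, List.length_nil, zero_add] at this
      have h1 : e (F.b v) ∘ₗ th ℝ deg = tws deg 1 (e (F.b v)) := by
        rw [tws, cK_one, one_smul, P_one]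
      rw [h1] at this
      have h2 := congrArg (tws deg 1) this
      rwa [tws_tws, tws_tws] at h2
    · intro x l hl hy
      by_cases hc : G.Chain x l
      · obtain ⟨V, F, v, l', rfl, rfl, hrep⟩ := exists_frame hFRM hc
        rw [arr_length] at hl
        have := (h.sr V F).unit_rep v l' hl (hrep hy)
        rwa [hom_tw, tws_eq_zero] at this
      · exact hz x l hc
  · intro F hR hR'
    constructor
    · intro h
      have hd : ∀ x l, Deg deg deg' (F x l) (0 - l.length) := fun x l => by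
        have := h.F_deg x l
        rwa [zero_sub]
      refine ⟨⟨fun x l hl => by rw [tw_apply, h.F_zero x l hl, tws_zero],
        hS.2.2.2.2.1 F deg h.F_smooth, ?_⟩, ?_⟩
      · intro V Fr
        refine ⟨?_, ?_, ?_⟩
        · intro v l
          rw [hom_tw, tws_deg]
          have := hd (Fr.b v) (Fr.arr v l)
          rwa [arr_length] at this
        · intro v l
          rw [hom_tw, tws_left]
          exact h.F_left _ _
        · intro v l
          rw [hom_tw, tws_right (hR.e_deg _)]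
          have := h.F_right (Fr.b v) (Fr.arr v l)
          rwa [fin_arr] at this
      · intro V Fr v l
        rw [eqF hR.R_deg F hd V Fr v l, tws_eq_zero, sub_eq_zero]
        exact (h.eqn _ _ (frame_chain Fr v l)).symm
    · rintro ⟨h, hcl⟩
      have hz : ∀ x l, ¬ G.Chain x l → F x l = 0 := by
        intro x l hl
        have := h.zero x l hl
        rwa [tw_apply, tws_eq_zero] at this
      have hd : ∀ x l, Deg deg deg' (F x l) (0 - l.length) := by
        intro x l
        by_cases hl : G.Chain x l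
        · obtain ⟨V, Fr, v, l', rfl, rfl, -⟩ := exists_frame hFRM hl
          have := (h.co V Fr).deg_A v l'
          rw [hom_tw, tws_deg] at this
          rwa [arr_length]
        · rw [hz x l hl]
          exact Deg.zero
      refine ⟨hz, ?_, ?_, ?_, ?_, ?_⟩
      · have := hS.2.2.2.2.1 (tw deg F) deg h.smooth
        rwa [twtw] at this
      · intro x l
        have := hd x l
        rwa [zero_sub] at this
      · intro x l
        by_cases hl : G.Chain x l
        · obtain ⟨V, Fr, v, l', rfl, rfl, -⟩ := exists_frame hFRM hl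
          have := (h.co V Fr).left v l'
          rwa [hom_tw, tws_left] at this
        · rw [hz x l hl, LinearMap.comp_zero]
      · intro x l
        by_cases hl : G.Chain x l
        · obtain ⟨V, Fr, v, l', rfl, rfl, -⟩ := exists_frame hFRM hl
          have := (h.co V Fr).right v l'
          rw [hom_tw, tws_right (hR.e_deg _)] at this
          rwa [fin_arr]
        · rw [hz x l hl, LinearMap.zero_comp]
      · intro x l hl
        obtain ⟨V, Fr, v, l', rfl, rfl, -⟩ := exists_frame hFRM hl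
        have := hcl V Fr v l'
        rw [eqF hR.R_deg F hd V Fr v l', tws_eq_zero, sub_eq_zero] at this
        exact this.symm
  · intro A B hB
    funext x l
    have hB' : ∀ x l, Deg deg deg' (B x l) (0 - l.length) := fun x l => by
      rw [zero_sub]; exact hB x l
    rw [star_tw (s := 0) A B hB', tw_apply, starG]
    simp only [mul_zero, sgn_zero, one_smul]
  · funext x l
    cases l with
    | nil =>
      rw [tw_apply, List.length_nil, tws, cK_zero, one_smul, P_zero, LinearMap.comp_id]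
    | cons g l => rw [tw_apply, unitG, tws_zero]
  · intro F x
    rw [tw_apply, List.length_nil, tws, cK_zero, one_smul, P_zero, LinearMap.comp_id]
  · intro G' φ F
    funext x l
    rw [tw_apply, pullG, pullG]
    by_cases hc : G'.Chain x l
    · rw [if_pos hc, if_pos hc, tw_apply, List.length_map]
    · rw [if_neg hc, if_neg hc, tws_zero]

end Pool.Agent.Lib.MP_9b987c_gt.HC
end

section
/-!
# HES: essential surjectivity, hat form
-/
namespace Pool.Agent.Lib.MP_9b987c_gt.HC

open scoped Manifold ContDiff BigOperators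

namespace HESM

variable {G' G : LieGpd}

/-- The constant frame at an object. -/
def cst (x : G.Ob) : Frame G Unit where
  b _ := x
  c _ _ := G.one x
  src_c _ _ := G.src_one x
  tgt_c _ _ := G.tgt_one x
  c_one _ := rfl
  c_mul _ _ _ := by
    have := G.one_mul (G.one x)
    rwa [G.tgt_one] at this

lemma DD_pb {V W ι κ : Type} (p : V → W) (deg' : κ → ℤ) (t : ℤ)
    (RE : W → List W → ((ι → ℝ) →ₗ[ℝ] (ι → ℝ))) (RF : W → List W → ((κ → ℝ) →ₗ[ℝ] (κ → ℝ)))
    (A : W → List W → ((ι → ℝ) →ₗ[ℝ] (κ → ℝ))) (v : V) (l : List V) :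
    DD deg' t (pb p RE) (pb p RF) (pb p A) v l = DD deg' t RE RF A (p v) (l.map p) := by
  rw [DD, DD, fc_pb, cv_pb, cv_pb]
  rfl

end HESM

open HESM in
theorem specHES (hFRM : SpecFRM) (hHRE : SpecHRE) (hHPS : SpecHPS) (hOUT : SpecOUT)
    (hQAC : SpecQAC) : SpecHES := by
  rintro G' G φ ⟨T⟩ ι _ _ deg e R hR
  obtain ⟨-, -, -, -, -, f6, -, -, -, -, -⟩ := hFRM G'
  obtain ⟨lo, hlo⟩ := (Set.finite_range deg).bddBelow
  obtain ⟨hi, hhi⟩ := (Set.finite_range deg).bddAbove
  have hlo' : ∀ i, lo ≤ deg i := fun i => hlo ⟨i, rfl⟩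
  have hhi' : ∀ i, deg i ≤ lo + ((hi - lo).toNat : ℕ) := by
    intro i
    have h1 := hlo' i
    have h2 : deg i ≤ hi := hhi ⟨i, rfl⟩
    omega
  obtain ⟨eE, RE, hE, hER⟩ := hHRE G' G φ T ι deg lo (hi - lo).toNat e R hR hlo' hhi'
  obtain ⟨Ps, hPs, hPs0, hPsF⟩ := hHPS G' G φ T ι deg lo (hi - lo).toNat e R hR
  -- the output of the construction on the induced frame
  have out : ∀ (V : Type) (F : Frame G' V), _ := fun V F =>
    hOUT ℝ (VV φ (F.push φ)) V (Fin T.N) ι (cvF T (F.push φ)) deg lo (hi - lo).toNat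
      (fun q => e ((upF φ (F.push φ)).b q)) ((upF φ (F.push φ)).hom R)
      (HREM.cvF_ok T (F.push φ)) (hR.sr _ (upF φ (F.push φ))) hlo' hhi'
  have hRj : ∀ (V : Type) (F : Frame G' V), F.hom R = pb (jF φ F) ((upF φ (F.push φ)).hom R) := by
    intro V F
    funext v l
    exact ((f6 V _ F (upF φ (F.push φ)) (jF φ F) (jF_map φ F)).2 _ R v l).symm
  have hPj : ∀ (V : Type) (F : Frame G' V), F.hom Ps =
      pb (jF φ F) (oPsi (cvF T (F.push φ)) deg lo (hi - lo).toNat ((upF φ (F.push φ)).hom R)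
        (fun q => e ((upF φ (F.push φ)).b q))) := by
    intro V F
    funext v l
    exact hPsF V F v l
  have hpj : ∀ (V : Type) (F : Frame G' V) (l : List V),
      (l.map (jF φ F)).map (cvF T (F.push φ)).p = l := by
    intro V F l
    rw [List.map_map]
    conv_rhs => rw [← List.map_id l]
    rfl
  have hREj : ∀ (V : Type) (F : Frame G' V), F.hom (pullG φ RE) =
      pb (jF φ F) (pb (cvF T (F.push φ)).p (oR (cvF T (F.push φ)) deg lo (hi - lo).toNat
        ((upF φ (F.push φ)).hom R))) := by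
    intro V F
    rw [PULM.hom_pull]
    funext v l
    rw [(hER V (F.push φ)).2 v l]
    show _ = oR (cvF T (F.push φ)) deg lo (hi - lo).toNat ((upF φ (F.push φ)).hom R) v
      ((l.map (jF φ F)).map (cvF T (F.push φ)).p)
    rw [hpj]
  have hco : HCo G' (dgO (hi - lo).toNat (Fin T.N) deg) deg 0 (fun x => eE (φ.ob x)) e Ps := by
    refine ⟨hPs0, hPs, fun V F => ?_⟩
    have h := (out V F).2.1
    rw [hPj V F]
    refine ⟨?_, ?_, ?_⟩
    · intro v l
      have h1 := h.deg_A (jF φ F v) (l.map (jF φ F))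
      rwa [List.length_map] at h1
    · intro v l
      exact h.left (jF φ F v) (l.map (jF φ F))
    · intro v l
      have h1 := h.right (jF φ F v) (l.map (jF φ F))
      rw [lst_map] at h1
      have h2 : oE (cvF T (F.push φ)) deg lo (hi - lo).toNat ((upF φ (F.push φ)).hom R)
          ((cvF T (F.push φ)).p (jF φ F (lst v l))) = eE (φ.ob (F.b (lst v l))) :=
        ((hER V (F.push φ)).1 (lst v l)).symm
      simp only [h2] at h1
      exact h1
  have hcl : HCl G' deg (pullG φ RE) R Ps := by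
    intro V F v l
    rw [hREj V F, hRj V F, hPj V F, DD_pb]
    exact (out V F).2.2.1 (jF φ F v) (l.map (jF φ F))
  refine ⟨Kap (hi - lo).toNat (Fin T.N) ι, inferInstance, inferInstance,
    dgO (hi - lo).toNat (Fin T.N) deg, eE, RE, Ps, hE, hco, hcl, fun x => ?_⟩
  have hF : HoEq (eE (φ.ob x)) (RE (φ.ob x) []) (e x) (R x []) (Ps x []) := by
    have h := (out Unit (cst x)).2.2.2 (jF φ (cst x) ())
    have h1 : oE (cvF T ((cst x).push φ)) deg lo (hi - lo).toNat
        ((upF φ ((cst x).push φ)).hom R) ((cvF T ((cst x).push φ)).p (jF φ (cst x) ())) =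
        eE (φ.ob x) := ((hER Unit ((cst x).push φ)).1 ()).symm
    have h2 : oR (cvF T ((cst x).push φ)) deg lo (hi - lo).toNat
        ((upF φ ((cst x).push φ)).hom R) ((cvF T ((cst x).push φ)).p (jF φ (cst x) ())) [] =
        RE (φ.ob x) [] := ((hER Unit ((cst x).push φ)).2 () []).symm
    have h3 : oPsi (cvF T ((cst x).push φ)) deg lo (hi - lo).toNat
        ((upF φ ((cst x).push φ)).hom R) (fun q => e ((upF φ ((cst x).push φ)).b q))
        (jF φ (cst x) ()) [] = Ps x [] := (hPsF Unit (cst x) () []).symm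
    rw [h1, h2, h3] at h
    exact h
  have sE := hE.sr Unit (cst (φ.ob x))
  have sR := hR.sr Unit (cst x)
  have sP := hco.co Unit (cst x)
  have dE := sE.eqn () []
  have dR := sR.eqn () []
  have dP := hcl Unit (cst x) () []
  rw [DD, fc_nil, cv_nil, cv_nil, LinearMap.comp_zero, zero_add, sgn_zero, one_smul,
    sub_eq_zero] at dP
  rw [fc_nil, cv_nil, LinearMap.comp_zero, zero_add] at dE dR
  have hpull : (cst x).hom (pullG φ RE) () [] = RE (φ.ob x) [] := by
    rw [PULM.hom_pull]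
    rfl
  rw [hpull] at dP
  refine (hQAC (Kap (hi - lo).toNat (Fin T.N) ι) ι (eE (φ.ob x)) (RE (φ.ob x) []) (e x) (R x [])
    (Ps x []) (sE.e_idem ()) dE (sE.left () []) (sE.right () []) (sR.e_idem ()) dR (sR.left () [])
    (sR.right () []) dP.symm (sP.left () []) (sP.right () [])).2 hF

end Pool.Agent.Lib.MP_9b987c_gt.HC
end

section
/-!
# The two sign conventions without unit conditions (HATN)
-/
namespace Pool.Agent.Lib.MP_9b987c_gt.HC.NU

open scoped Manifold ContDiff BigOperators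

open HATM SMPM in
theorem specHATN (hFRM : SpecFRM) : SpecHATN := by
  intro G ι κ _ _ _ _ deg deg' e R e' R'
  obtain ⟨-, f2, -, f4, -, -, -, -, -, -, -⟩ := hFRM G
  have hS := specSMP G ι κ κ
  have hS2 := specSMP G ι ι ι
  have twtw : ∀ F : G.Ob → List G.Ar → (ι → ℝ) →ₗ[ℝ] (κ → ℝ), tw deg (tw deg F) = F := by
    intro F
    funext x l
    rw [tw_apply, tw_apply, tws_tws]
  have twtw2 : ∀ F : G.Ob → List G.Ar → (ι → ℝ) →ₗ[ℝ] (ι → ℝ), tw deg (tw deg F) = F := by
    intro F
    funext x l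
    rw [tw_apply, tw_apply, tws_tws]
  -- the equation of representations up to homotopy
  have eqR : (∀ x l, Deg deg deg (R x l) (1 - l.length)) → ∀ (V : Type) (F : Frame G V) v l,
      th ℝ deg ∘ₗ fc (F.hom (tw deg R)) v l + cv (F.hom (tw deg R)) (F.hom (tw deg R)) v l =
        tws deg l.length (∑ j ∈ Finset.range ((F.arr v l).length + 1),
          ((-1 : ℝ) ^ j) • (R (F.b v) ((F.arr v l).take j) ∘ₗ
            R (G.fin (F.b v) ((F.arr v l).take j)) ((F.arr v l).drop j)) -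
          ∑ j ∈ Finset.range ((F.arr v l).length - 1),
            ((-1 : ℝ) ^ (j + 1)) • R (F.b v) (G.face j (F.arr v l))) := by
    intro hR V F v l
    rw [← f2 V F, ← f4 V F, Frame.hom, star_tw (s := 1) R R hR]
    have h4 := face_tw (s := 1) R hR (F.b v) (F.arr v l)
    rw [arr_length] at h4 ⊢
    rw [h4, ← tws_add, sgn_one_smul, neg_add_eq_sub]
    simp only [mul_one, sgn_natCast]
  have eqF : (∀ x l, Deg deg deg (R x l) (1 - l.length)) →
      ∀ F : G.Ob → List G.Ar → (ι → ℝ) →ₗ[ℝ] (κ → ℝ), (∀ x l, Deg deg deg' (F x l) (0 - l.length)) →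
      ∀ (V : Type) (Fr : Frame G V) v l,
      DD deg' 0 (Fr.hom (tw deg R)) (Fr.hom (tw deg' R')) (Fr.hom (tw deg F)) v l =
        tws deg l.length (
          (∑ j ∈ Finset.range ((Fr.arr v l).length + 1), R' (Fr.b v) ((Fr.arr v l).take j) ∘ₗ
            F (G.fin (Fr.b v) ((Fr.arr v l).take j)) ((Fr.arr v l).drop j) +
          ∑ j ∈ Finset.range ((Fr.arr v l).length - 1),
            ((-1 : ℝ) ^ (j + 1)) • F (Fr.b v) (G.face j (Fr.arr v l))) -
          ∑ j ∈ Finset.range ((Fr.arr v l).length + 1),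
          ((-1 : ℝ) ^ j) • (F (Fr.b v) ((Fr.arr v l).take j) ∘ₗ
            R (G.fin (Fr.b v) ((Fr.arr v l).take j)) ((Fr.arr v l).drop j))) := by
    intro hR F hF V Fr v l
    rw [DD, ← f2 V Fr, ← f2 V Fr, ← f4 V Fr, Frame.hom, Frame.hom, star_tw (s := 1) F R hR,
      star_tw (s := 0) R' F hF]
    have h4 := face_tw (s := 0) F hF (Fr.b v) (Fr.arr v l)
    rw [arr_length] at h4 ⊢
    rw [h4, sgn_zero, one_smul, one_smul, ← tws_add, ← tws_sub]
    simp only [mul_one, mul_zero, sgn_natCast, sgn_zero, one_smul]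
    rw [add_comm (∑ j ∈ Finset.range (l.length - 1), _)]
  refine ⟨⟨?_, ?_⟩, ?_⟩
  · intro h
    refine ⟨h.e_smooth, fun x l hl => by rw [tw_apply, h.R_zero x l hl, tws_zero],
      hS2.2.2.2.2.1 R deg h.R_smooth, ?_⟩
    intro V F
    refine ⟨fun v => h.e_idem _, fun v => h.e_deg _, ?_, ?_, ?_, ?_⟩
    · intro v l
      rw [hom_tw, tws_deg]
      have := h.R_deg (F.b v) (F.arr v l)
      rwa [arr_length] at this
    · intro v l
      rw [hom_tw, tws_left]
      exact h.R_left _ _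
    · intro v l
      rw [hom_tw, tws_right (h.e_deg _)]
      have := h.R_right (F.b v) (F.arr v l)
      rwa [fin_arr] at this
    · intro v l
      rw [eqR h.R_deg V F v l, tws_eq_zero, sub_eq_zero]
      exact (h.eqn _ _ (frame_chain F v l)).symm
  · intro h
    have hz : ∀ x l, ¬ G.Chain x l → R x l = 0 := by
      intro x l hl
      have := h.zero x l hl
      rwa [tw_apply, tws_eq_zero] at this
    have hed : ∀ x, Deg deg deg (e x) 0 := by
      intro x
      obtain ⟨V, F, v, l', rfl, -, -⟩ := exists_frame hFRM (x := x) (l := []) (by simp [LieGpd.Chain])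
      exact (h.sr V F).e_deg v
    have hRd : ∀ x l, Deg deg deg (R x l) (1 - l.length) := by
      intro x l
      by_cases hl : G.Chain x l
      · obtain ⟨V, F, v, l', rfl, rfl, -⟩ := exists_frame hFRM hl
        have := (h.sr V F).deg_R v l'
        rw [hom_tw, tws_deg] at this
        rwa [arr_length]
      · rw [hz x l hl]
        exact Deg.zero
    refine ⟨h.e_smooth, ?_, hed, hz, ?_, hRd, ?_, ?_, ?_⟩
    · intro x
      obtain ⟨V, F, v, l', rfl, -, -⟩ := exists_frame hFRM (x := x) (l := []) (by simp [LieGpd.Chain])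
      exact (h.sr V F).e_idem v
    · have := hS2.2.2.2.2.1 (tw deg R) deg h.smooth
      rwa [twtw2] at this
    · intro x l
      by_cases hl : G.Chain x l
      · obtain ⟨V, F, v, l', rfl, rfl, -⟩ := exists_frame hFRM hl
        have := (h.sr V F).left v l'
        rwa [hom_tw, tws_left] at this
      · rw [hz x l hl, LinearMap.comp_zero]
    · intro x l
      by_cases hl : G.Chain x l
      · obtain ⟨V, F, v, l', rfl, rfl, -⟩ := exists_frame hFRM hl
        have := (h.sr V F).right v l'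
        rw [hom_tw, tws_right (hed _)] at this
        rwa [fin_arr]
      · rw [hz x l hl, LinearMap.zero_comp]
    · intro x l hl
      obtain ⟨V, F, v, l', rfl, rfl, -⟩ := exists_frame hFRM hl
      have := (h.sr V F).eqn v l'
      rw [eqR hRd V F v l', tws_eq_zero, sub_eq_zero] at this
      exact this.symm
  · intro F hR hR'
    constructor
    · intro h
      have hd : ∀ x l, Deg deg deg' (F x l) (0 - l.length) := fun x l => by
        have := h.F_deg x l
        rwa [zero_sub]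
      refine ⟨⟨fun x l hl => by rw [tw_apply, h.F_zero x l hl, tws_zero],
        hS.2.2.2.2.1 F deg h.F_smooth, ?_⟩, ?_⟩
      · intro V Fr
        refine ⟨?_, ?_, ?_⟩
        · intro v l
          rw [hom_tw, tws_deg]
          have := hd (Fr.b v) (Fr.arr v l)
          rwa [arr_length] at this
        · intro v l
          rw [hom_tw, tws_left]
          exact h.F_left _ _
        · intro v l
          rw [hom_tw, tws_right (hR.e_deg _)]
          have := h.F_right (Fr.b v) (Fr.arr v l)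
          rwa [fin_arr] at this
      · intro V Fr v l
        rw [eqF hR.R_deg F hd V Fr v l, tws_eq_zero, sub_eq_zero]
        exact (h.eqn _ _ (frame_chain Fr v l)).symm
    · rintro ⟨h, hcl⟩
      have hz : ∀ x l, ¬ G.Chain x l → F x l = 0 := by
        intro x l hl
        have := h.zero x l hl
        rwa [tw_apply, tws_eq_zero] at this
      have hd : ∀ x l, Deg deg deg' (F x l) (0 - l.length) := by
        intro x l
        by_cases hl : G.Chain x l
        · obtain ⟨V, Fr, v, l', rfl, rfl, -⟩ := exists_frame hFRM hl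
          have := (h.co V Fr).deg_A v l'
          rw [hom_tw, tws_deg] at this
          rwa [arr_length]
        · rw [hz x l hl]
          exact Deg.zero
      refine ⟨hz, ?_, ?_, ?_, ?_, ?_⟩
      · have := hS.2.2.2.2.1 (tw deg F) deg h.smooth
        rwa [twtw] at this
      · intro x l
        have := hd x l
        rwa [zero_sub] at this
      · intro x l
        by_cases hl : G.Chain x l
        · obtain ⟨V, Fr, v, l', rfl, rfl, -⟩ := exists_frame hFRM hl
          have := (h.co V Fr).left v l'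
          rwa [hom_tw, tws_left] at this
        · rw [hz x l hl, LinearMap.comp_zero]
      · intro x l
        by_cases hl : G.Chain x l
        · obtain ⟨V, Fr, v, l', rfl, rfl, -⟩ := exists_frame hFRM hl
          have := (h.co V Fr).right v l'
          rw [hom_tw, tws_right (hR.e_deg _)] at this
          rwa [fin_arr]
        · rw [hz x l hl, LinearMap.zero_comp]
      · intro x l hl
        obtain ⟨V, Fr, v, l', rfl, rfl, -⟩ := exists_frame hFRM hl
        have := hcl V Fr v l'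
        rw [eqF hR.R_deg F hd V Fr v l', tws_eq_zero, sub_eq_zero] at this
        exact this.symm

end Pool.Agent.Lib.MP_9b987c_gt.HC.NU
end
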