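import Pool.Agent.Lib.MP_9b987c_gt.HC.NU.SpecN

set_option autoImplicit false

/-!
The example for non-unital representations up to homotopy: pair groupoid of the line, the point.
-/

namespace Pool.Agent.Lib.MP_9b987c_gt.HC.NU

open scoped Manifold ContDiff BigOperators

namespace NEXM

theorem cd {d n : ℕ} {U : Set (Eu d)} {f : Eu d → Eu n} :
    ContMDiffOn (𝓡 d) (𝓡 n) ∞ f U ↔ ∀ i, ContDiffOn ℝ ∞ (fun u => f u i) U := by
  rw [contMDiffOn_iff_contDiffOn, contDiffOn_euclidean]

theorem cg {d n : ℕ} {f : Eu d → Eu n} (h : ∀ i, ContDiff ℝ ∞ (fun u => f u i)) :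
    ContMDiff (𝓡 d) (𝓡 n) ∞ f := by
  rw [contMDiff_iff_contDiff, contDiff_euclidean]
  exact h

theorem sub_of_equiv {n m : ℕ} {F : Type} [NormedAddCommGroup F] [NormedSpace ℝ F]
    (e : Eu n ≃L[ℝ] (Eu m × F)) :
    Manifold.IsSubmersion (𝓡 n) (𝓡 m) ∞ (fun x : Eu n => (e x).1) := by
  refine Manifold.IsSubmersionOfComplement.isSubmersion (F := F) ?_
  intro x
  refine Manifold.IsSubmersionAtOfComplement.mk_of_charts e (chartAt _ x) (chartAt _ (e x).1)
    (mem_chart_source _ x) (mem_chart_source _ _) (IsManifold.chart_mem_maximalAtlas x)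
    (IsManifold.chart_mem_maximalAtlas _) ?_ ?_
  · intro y _
    exact Set.mem_univ _
  · intro y _
    rfl

/-- a point of the line -/
noncomputable def mk1 (a : ℝ) : Eu 1 := WithLp.toLp 2 (fun _ => a)

/-- a point of the plane -/
noncomputable def mk2 (a b : ℝ) : Eu 2 := WithLp.toLp 2 ![a, b]

@[simp] theorem mk1_apply (a : ℝ) (i : Fin 1) : mk1 a i = a := rfl

@[simp] theorem mk2_zero (a b : ℝ) : mk2 a b 0 = a := rfl

@[simp] theorem mk2_one (a b : ℝ) : mk2 a b 1 = b := rfl

theorem mk1_eta (x : Eu 1) : mk1 (x 0) = x := by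
  ext i
  rw [Subsingleton.elim i 0]
  rfl

theorem mk2_eta (x : Eu 2) : mk2 (x 0) (x 1) = x := by
  ext i
  fin_cases i <;> rfl

/-- first coordinate and second coordinate -/
noncomputable def eqv : Eu 2 ≃L[ℝ] (Eu 1 × Eu 1) :=
  LinearEquiv.toContinuousLinearEquiv
    { toFun := fun x => (mk1 (x 0), mk1 (x 1))
      invFun := fun p => mk2 (p.1 0) (p.2 0)
      map_add' := fun x y => by
        refine Prod.ext ?_ ?_ <;> ext i <;> simp
      map_smul' := fun c x => by
        refine Prod.ext ?_ ?_ <;> ext i <;> simp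
      left_inv := fun x => mk2_eta x
      right_inv := fun p => by
        refine Prod.ext ?_ ?_
        · exact mk1_eta p.1
        · exact mk1_eta p.2 }

/-- the same in the other order -/
noncomputable def eqv' : Eu 2 ≃L[ℝ] (Eu 1 × Eu 1) :=
  LinearEquiv.toContinuousLinearEquiv
    { toFun := fun x => (mk1 (x 1), mk1 (x 0))
      invFun := fun p => mk2 (p.2 0) (p.1 0)
      map_add' := fun x y => by
        refine Prod.ext ?_ ?_ <;> ext i <;> simp
      map_smul' := fun c x => by
        refine Prod.ext ?_ ?_ <;> ext i <;> simp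
      left_inv := fun x => mk2_eta x
      right_inv := fun p => by
        refine Prod.ext ?_ ?_
        · exact mk1_eta p.1
        · exact mk1_eta p.2 }

theorem coord {d n : ℕ} {U : Set (Eu d)} {f : Eu d → Eu n}
    (h : ContMDiffOn (𝓡 d) (𝓡 n) ∞ f U) (i : Fin n) : ContDiffOn ℝ ∞ (fun u => f u i) U :=
  cd.1 h i

theorem cproj (n : ℕ) (i : Fin n) : ContDiff ℝ ∞ (fun u : Eu n => u i) :=
  contDiff_euclidean.1 contDiff_id i

/-- the pair groupoid of the line -/
noncomputable abbrev pairR : LieGpd where
  m := 1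
  n := 2
  Ob := Eu 1
  Ar := Eu 2
  src := fun g => mk1 (g 1)
  tgt := fun g => mk1 (g 0)
  one := fun x => mk2 (x 0) (x 0)
  inv := fun g => mk2 (g 1) (g 0)
  mul := fun g h => mk2 (g 0) (h 1)
  src_surj := fun x => ⟨mk2 0 (x 0), mk1_eta x⟩
  tgt_surj := fun x => ⟨mk2 (x 0) 0, mk1_eta x⟩
  src_subm := sub_of_equiv eqv'
  tgt_subm := sub_of_equiv eqv
  one_smooth := cg fun i => by
    fin_cases i
    · exact cproj 1 0
    · exact cproj 1 0
  inv_smooth := cg fun i => by
    fin_cases i
    · exact cproj 2 1
    · exact cproj 2 0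
  mul_smooth := fun d U a b _ ha hb _ => cd.2 fun i => by
    fin_cases i
    · exact coord ha 0
    · exact coord hb 1
  src_one := fun x => mk1_eta x
  tgt_one := fun x => mk1_eta x
  src_inv := fun _ => rfl
  tgt_inv := fun _ => rfl
  src_mul := fun _ _ _ => rfl
  tgt_mul := fun _ _ _ => rfl
  mul_assoc := fun _ _ _ _ _ => rfl
  one_mul := fun g => mk2_eta g
  mul_one := fun g => mk2_eta g
  inv_mul := fun _ => rfl
  mul_inv := fun _ => rfl

/-- the point -/
noncomputable abbrev pt : LieGpd where
  m := 0
  n := 0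
  Ob := Eu 0
  Ar := Eu 0
  src := id
  tgt := id
  one := id
  inv := id
  mul := fun g _ => g
  src_surj := Function.surjective_id
  tgt_surj := Function.surjective_id
  src_subm := Manifold.IsSubmersion.id
  tgt_subm := Manifold.IsSubmersion.id
  one_smooth := contMDiff_id
  inv_smooth := contMDiff_id
  mul_smooth := fun _ _ _ _ _ ha _ _ => ha
  src_one := fun _ => rfl
  tgt_one := fun _ => rfl
  src_inv := fun _ => rfl
  tgt_inv := fun _ => rfl
  src_mul := fun _ _ h => h
  tgt_mul := fun _ _ _ => rfl
  mul_assoc := fun _ _ _ _ _ => rfl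
  one_mul := fun _ => rfl
  mul_one := fun _ => rfl
  inv_mul := fun _ => rfl
  mul_inv := fun _ => rfl

/-- `Eu 1` is `Eu 0` times `Eu 1` -/
noncomputable def eqv0 : Eu 1 ≃L[ℝ] (Eu 0 × Eu 1) :=
  LinearEquiv.toContinuousLinearEquiv
    { toFun := fun x => (0, x)
      invFun := fun p => p.2
      map_add' := fun x y => by
        refine Prod.ext ?_ rfl
        simp
      map_smul' := fun c x => by
        refine Prod.ext ?_ rfl
        simp
      left_inv := fun x => rfl
      right_inv := fun p => by
        refine Prod.ext ?_ rfl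
        exact Subsingleton.elim _ _ }

/-- the hypercover -/
noncomputable def cov : Hypercover pairR pt where
  ob := fun _ => (0 : Eu 0)
  ar := fun _ => (0 : Eu 0)
  ob_subm := sub_of_equiv eqv0
  ob_surj := fun y => ⟨(0 : Eu 1), Subsingleton.elim (α := Eu 0) _ _⟩
  ar_smooth := contMDiff_const
  src_ar := fun _ => rfl
  tgt_ar := fun _ => rfl
  ar_one := fun _ => rfl
  ar_mul := fun _ _ _ => rfl
  cart := fun (y' : Eu 1) g (x' : Eu 1) _ _ => by
    refine ⟨mk2 (y' 0) (x' 0), ⟨mk1_eta y', mk1_eta x', Subsingleton.elim (α := Eu 0) _ _⟩, ?_⟩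
    rintro (g' : Eu 2) ⟨h1, h2, -⟩
    have h3 : g' 0 = y' 0 := congrArg (fun z : Eu 1 => z 0) h1
    have h4 : g' 1 = x' 0 := congrArg (fun z : Eu 1 => z 0) h2
    rw [← h3, ← h4]
    exact (mk2_eta g').symm
  cart_smooth := fun d U g' _ h1 h2 _ => cd.2 fun i => by
    fin_cases i
    · exact coord (n := 1) h1 0
    · exact coord (n := 1) h2 0

/-- the nilpotent map -/
noncomputable def D : (Fin 2 → ℝ) →ₗ[ℝ] (Fin 2 → ℝ) :=
  LinearMap.pi ![0, LinearMap.proj 0]

theorem D_zero (z : Fin 2 → ℝ) : D z 0 = 0 := rfl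

theorem D_one (z : Fin 2 → ℝ) : D z 1 = z 0 := rfl

theorem D_D : D ∘ₗ D = 0 := by
  ext z i
  fin_cases i <;> simp [D_zero, D_one]

/-- the structure operators -/
noncomputable def R : pairR.Ob → List pairR.Ar → (Fin 2 → ℝ) →ₗ[ℝ] (Fin 2 → ℝ)
  | x, [] => (show Eu 1 from x) 0 • D
  | _, _ :: _ => 0

theorem R_nil (x : pairR.Ob) : R x [] = (show Eu 1 from x) 0 • D := rfl

theorem R_cons (x : pairR.Ob) (g : pairR.Ar) (l : List pairR.Ar) : R x (g :: l) = 0 := rfl

theorem R_ne {x : pairR.Ob} {l : List pairR.Ar} (h : l ≠ []) : R x l = 0 := by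
  cases l with
  | nil => exact absurd rfl h
  | cons g l => rfl

end NEXM

open NEXM in
theorem specNEX : SpecNEX := by
  refine ⟨pairR, pt, cov, ![0, 1], fun _ => LinearMap.id, R, mk1 0, mk1 1, ?_, rfl, ?_, ?_⟩
  · refine ⟨?_, ?_, ?_, ?_, ?_, ?_, ?_, ?_, ?_⟩
    · intro i j
      exact contMDiff_const
    · intro x
      rfl
    · intro x q z hz
      rw [add_zero]
      exact hz
    · intro x l hl
      apply R_ne
      rintro rfl
      exact hl trivial
    · intro d k U x g hU hx hg hch i j
      cases k with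
      | zero =>
        have h1 : ContDiffOn ℝ ∞ (fun u => (show Eu 1 from x u) 0) U := coord (n := 1) hx 0
        have h2 : ∀ u, R (x u) (List.ofFn (fun a => g a u)) (Pi.single j 1) i =
            (show Eu 1 from x u) 0 * D (Pi.single j 1) i := fun u => rfl
        simp only [h2]
        exact h1.mul contDiffOn_const
      | succ k =>
        have h2 : ∀ u, R (x u) (List.ofFn (fun a => g a u)) (Pi.single j 1) i = 0 := by
          intro u
          rw [R_ne (by simp)]
          rfl
        simp only [h2]
        exact contDiffOn_const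
    · intro x l q z hz
      cases l with
      | nil =>
        intro i hi
        rw [R_nil] at hi
        fin_cases i
        · exact absurd (by simp [D_zero]) hi
        · have h1 : z 0 ≠ 0 := by
            intro h0
            apply hi
            simp [D_one, h0]
          have h2 := hz 0 h1
          simp at h2 ⊢
          omega
      | cons g l =>
        rw [R_cons]
        exact Submodule.zero_mem _
    · intro x l
      rfl
    · intro x l
      rfl
    · intro x l hl
      cases l with
      | nil =>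
        have h1 : R x [] ∘ₗ R x [] = 0 := by
          rw [R_nil, LinearMap.smul_comp, LinearMap.comp_smul, D_D, smul_zero, smul_zero]
        simp [LieGpd.fin, h1]
      | cons g t =>
        rw [Finset.sum_eq_zero, Finset.sum_eq_zero]
        · intro j _
          cases j with
          | zero =>
            rw [List.drop_zero, R_cons, LinearMap.comp_zero, smul_zero]
          | succ j =>
            rw [List.take_succ_cons, R_cons, LinearMap.zero_comp, smul_zero]
        · intro j hj
          rw [R_ne, smul_zero]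
          cases t with
          | nil => simp at hj
          | cons h t => cases j <;> simp [LieGpd.face]
  · refine ⟨![1, 0], rfl, ?_, ?_⟩
    · rw [R_nil]
      simp
    · rintro ⟨y, hy⟩
      rw [R_nil] at hy
      have := congrFun hy 0
      simp at this
  · intro z _ hz
    have h1 : z 0 = 0 := by
      have := congrFun hz 1
      rw [R_nil] at this
      simpa [D_one] using this
    refine ⟨![z 1, 0], ?_⟩
    rw [R_nil]
    ext i
    fin_cases i
    · simp [h1, D_zero]
    · simp [D_one]

end Pool.Agent.Lib.MP_9b987c_gt.HC.NU
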